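import Pool.Agent.L0h51.RK.Main

/-! The discrepancies over primitive extensions. -/

set_option autoImplicit false
set_option maxHeartbeats 400000
set_option linter.style.haveILetI false

namespace Pool.Agent.L0h51.RK

open Pool.Agent.K4H40.ST Pool.Agent.K4H40.ST.Zar Pool.Agent.K4H40.ST.Main
open Pool.Agent.K4H53.SI
open NumberField IsDedekindDomain Filter Topology MeasureTheory

variable {g : ℕ} {K : Type} [Field K] [NumberField K] {R : Type} [CommRing R]
  (ρ : Gal(Kbar K/K) →* GL (Fin g ⊕ Fin g) R) (ι : R →+* ℂ)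

theorem comparison_w
    (hsymp : IsSymplectic ρ) (hunr : IsUnramified K (Kbar K) ρ)
    {I : Type} [Fintype I] (E : I → IntermediateField K (Kbar K)) [∀ i, NumberField (E i)]
    (hdis : ∀ i j, i ≠ j → Module.finrank K (E i ⊔ E j : IntermediateField K (Kbar K)) =
      Module.finrank K (E i) * Module.finrank K (E j))
    (C : Subgroup (GL (Fin g ⊕ Fin g) ℂ)) (hC : IsSatoTateGroup (extend ρ ι) C)
    (x : HeightOneSpectrum (𝓞 K) → C) (hx : IsClassSystem K (Kbar K) (extend ρ ι) C x) :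
    ∃ (D : I → Subgroup (GL (Fin g ⊕ Fin g) ℂ)) (hD : ∀ i, D i ≤ C)
      (y : ∀ i, HeightOneSpectrum (𝓞 (E i)) → D i),
      (∀ i, IsSatoTateGroup (repOver ρ ι (E i)) (D i) ∧
        IsClassSystem (E i) (Kbar K) (repOver ρ ι (E i)) (D i) (y i)) ∧
      ∀ [MeasurableSpace C] [BorelSpace C] (μ : Measure C) [IsProbabilityMeasure μ]
        [μ.IsMulLeftInvariant]
        [∀ i, MeasurableSpace (D i)] [∀ i, BorelSpace (D i)] (ν : ∀ i, Measure (D i))
        [∀ i, IsProbabilityMeasure (ν i)] [∀ i, (ν i).IsMulLeftInvariant]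
        (f : C → ℂ), Continuous f → (∀ c h, f (h * c * h⁻¹) = f c) →
      ∀ B : ℝ, (∀ c, ‖f c‖ ≤ B) → ∀ ε : ℝ, 0 < ε →
      ∀ᶠ N in atTop, ∑ i, ‖disc (E i) (ν i) (y i) (fun d => f (Subgroup.inclusion (hD i) d)) N -
        disc K μ x f N‖ ^ 2 / ((rank (E i) : ℝ) - 1) ≤ 4 * B ^ 2 + ε := by
  have hr : ∀ i, (0 : ℝ) ≤ (rank (E i) : ℝ) - 1 := fun i => by
    haveI := finite_of (E i)
    have h := rank_pos (E i)
    have h1 : (1 : ℝ) ≤ (rank (E i) : ℝ) := by exact_mod_cast h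
    linarith
  obtain ⟨D, hD, y, h1, h2⟩ := mean_square_w (extend ρ ι) (unr_extend ρ ι hunr)
    (Final.isSim_of ρ ι hsymp) E (fun i j hij => pair_indep (hdis i j hij))
    (fun i => ((rank (E i) : ℝ) - 1)⁻¹) (fun i => inv_nonneg.2 (hr i))
    (fun i => inv_mul_le_one) C hC x hx
  refine ⟨D, hD, y, h1, ?_⟩
  intro _ _ μ _ _ _ _ ν _ _ f hf hcl B hB ε hε
  filter_upwards [h2 μ ν f hf hcl B hB ε hε] with N hN
  refine le_trans (le_of_eq (Finset.sum_congr rfl fun i _ => ?_)) hN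
  rw [div_eq_inv_mul]
  rfl

/-- Over the extension `E` of `K` the discrepancy of `f` is at least `δ` at arbitrarily large heights. -/
def Large (C : Subgroup (GL (Fin g ⊕ Fin g) ℂ)) (f : C → ℂ) (δ : ℝ)
    (E : IntermediateField K (Kbar K)) : Prop :=
  ∃ (_ : NumberField E) (D : Subgroup (GL (Fin g ⊕ Fin g) ℂ)) (hD : D ≤ C)
    (y : HeightOneSpectrum (𝓞 E) → D),
    IsSatoTateGroup (repOver ρ ι E) D ∧ IsClassSystem E (Kbar K) (repOver ρ ι E) D y ∧
    ∀ [MeasurableSpace D] [BorelSpace D] (ν : Measure D) [IsProbabilityMeasure ν]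
      [ν.IsMulLeftInvariant],
      ∃ᶠ N in atTop, δ ≤ ‖disc E ν y (fun d => f (Subgroup.inclusion hD d)) N‖

variable {ρ ι}

theorem not_large {C : Subgroup (GL (Fin g ⊕ Fin g) ℂ)} {f : C → ℂ} (hf : Continuous f)
    (hcl : ∀ c h, f (h * c * h⁻¹) = f c) {δ : ℝ} (hδ : 0 < δ) {E : IntermediateField K (Kbar K)}
    (hE : Holds ρ ι E) : ¬ Large ρ ι C f δ E := by
  rintro ⟨inst, D, hD, y, h1, h2, h3⟩
  obtain ⟨inst', hST⟩ := hE
  have hST' : SatoTate E (Kbar K) (repOver ρ ι E) := hST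
  letI : MeasurableSpace D := borel _
  haveI : BorelSpace D := ⟨rfl⟩
  haveI : CompactSpace D := isCompact_iff_compactSpace.mp h1.compact
  obtain ⟨ν, hν, hν'⟩ : ∃ ν : Measure D, IsProbabilityMeasure ν ∧ ν.IsMulLeftInvariant :=
    ⟨Measure.haarMeasure (⊤ : TopologicalSpace.PositiveCompacts D),
      ⟨Measure.haarMeasure_self⟩, inferInstance⟩
  have hc : Continuous (fun d : D => f (Subgroup.inclusion hD d)) :=
    hf.comp (continuous_subtype_val.subtype_mk _)
  have hcl' : ∀ c h : D, f (Subgroup.inclusion hD (h * c * h⁻¹)) = f (Subgroup.inclusion hD c) := by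
    intro c h
    rw [map_mul, map_mul, map_inv]
    exact hcl _ _
  have h4 := hST' D h1 y h2 ν (fun d => f (Subgroup.inclusion hD d)) hc hcl'
  have h5 := h3 ν
  refine h5 ?_
  rw [Metric.tendsto_nhds] at h4
  filter_upwards [h4 δ hδ] with N hN
  rw [dist_eq_norm] at hN
  unfold disc
  exact not_le.2 hN

variable (ρ ι)

theorem core (hsymp : IsSymplectic ρ) (hunr : IsUnramified K (Kbar K) ρ)
    {I : Type} [Fintype I] (E : I → IntermediateField K (Kbar K)) (hE : ∀ i, NumberField (E i))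
    (hdis : ∀ i j, i ≠ j → Module.finrank K (E i ⊔ E j : IntermediateField K (Kbar K)) =
      Module.finrank K (E i) * Module.finrank K (E j))
    (C : Subgroup (GL (Fin g ⊕ Fin g) ℂ)) (hC : IsSatoTateGroup (extend ρ ι) C)
    (x : HeightOneSpectrum (𝓞 K) → C) (hx : IsClassSystem K (Kbar K) (extend ρ ι) C x)
    [MeasurableSpace C] [BorelSpace C] (μ : Measure C) [IsProbabilityMeasure μ]
    [μ.IsMulLeftInvariant]
    (f : C → ℂ) (hf : Continuous f) (hcl : ∀ c h, f (h * c * h⁻¹) = f c)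
    (B : ℝ) (hB : ∀ c, ‖f c‖ ≤ B) (δ δ' : ℝ) (hδ : δ' < δ)
    (hW : 4 * B ^ 2 < (∑ i, ((rank (E i) : ℝ) - 1)⁻¹) * (δ - δ') ^ 2)
    (hfr : ∃ᶠ N in atTop, δ ≤ ‖disc K μ x f N‖) : ∃ i, Large ρ ι C f δ' (E i) := by
  by_contra h
  push Not at h
  obtain ⟨D, hD, y, h1, h2⟩ := comparison_w ρ ι hsymp hunr E hdis C hC x hx
  have h3 : ∀ i, ∃ (m : MeasurableSpace (D i)) (_ : BorelSpace (D i)) (ν : Measure (D i))
      (_ : IsProbabilityMeasure ν) (_ : ν.IsMulLeftInvariant), ∀ᶠ N in atTop,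
        ‖disc (E i) ν (y i) (fun d => f (Subgroup.inclusion (hD i) d)) N‖ < δ' := by
    intro i
    by_contra hcon
    refine h i ⟨inferInstance, D i, hD i, y i, (h1 i).1, (h1 i).2, fun {_} {_} ν _ _ => ?_⟩
    intro h4
    refine hcon ⟨_, inferInstance, ν, inferInstance, inferInstance, ?_⟩
    filter_upwards [h4] with N hN
    exact not_le.1 hN
  choose m hm ν hν hν' hlt using h3
  set W := ∑ i, ((rank (E i) : ℝ) - 1)⁻¹ with hWd
  obtain ⟨ε, hε0, hε⟩ : ∃ ε : ℝ, 0 < ε ∧ 4 * B ^ 2 + ε < W * (δ - δ') ^ 2 :=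
    ⟨(W * (δ - δ') ^ 2 - 4 * B ^ 2) / 2, by linarith, by linarith⟩
  have h4 := h2 μ ν f hf hcl B hB ε hε0
  have h5 : ∀ᶠ N in atTop, ∀ i,
      ‖disc (E i) (ν i) (y i) (fun d => f (Subgroup.inclusion (hD i) d)) N‖ < δ' :=
    eventually_all.2 hlt
  obtain ⟨N, h6, h7, h8⟩ := (hfr.and_eventually (h4.and h5)).exists
  have h9 : W * (δ - δ') ^ 2 ≤ ∑ i, ‖disc (E i) (ν i) (y i)
      (fun d => f (Subgroup.inclusion (hD i) d)) N - disc K μ x f N‖ ^ 2 /
        ((rank (E i) : ℝ) - 1) := by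
    rw [hWd, Finset.sum_mul]
    refine Finset.sum_le_sum fun i _ => ?_
    rw [div_eq_inv_mul]
    haveI := finite_of (E i)
    have h10 := rank_pos (E i)
    have h11 : (1 : ℝ) ≤ (rank (E i) : ℝ) := by exact_mod_cast h10
    refine mul_le_mul_of_nonneg_left ?_ (inv_nonneg.2 (by linarith))
    refine pow_le_pow_left₀ (by linarith) ?_ 2
    have h12 := norm_sub_norm_le (disc K μ x f N) (disc (E i) (ν i) (y i)
      (fun d => f (Subgroup.inclusion (hD i) d)) N)
    rw [norm_sub_rev] at h12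
    have h13 := h8 i
    linarith
  linarith

/-- Primitive extensions of bounded rank. -/
theorem zero_one (hsymp : IsSymplectic ρ) (hunr : IsUnramified K (Kbar K) ρ) (r : ℕ)
    (C : Subgroup (GL (Fin g ⊕ Fin g) ℂ)) (hC : IsSatoTateGroup (extend ρ ι) C)
    (x : HeightOneSpectrum (𝓞 K) → C) (hx : IsClassSystem K (Kbar K) (extend ρ ι) C x)
    [MeasurableSpace C] [BorelSpace C] (μ : Measure C) [IsProbabilityMeasure μ]
    [μ.IsMulLeftInvariant]
    (f : C → ℂ) (hf : Continuous f) (hcl : ∀ c h, f (h * c * h⁻¹) = f c)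
    (δ δ' : ℝ) (hδ : δ' < δ) (hfr : ∃ᶠ N in atTop, δ ≤ ‖disc K μ x f N‖) :
    {E : IntermediateField K (Kbar K) | FiniteDimensional K E ∧ IsAtom E ∧ rank E ≤ r ∧
      ¬ Large ρ ι C f δ' E}.Finite := by
  by_contra hcon
  have hinf : {E : IntermediateField K (Kbar K) | FiniteDimensional K E ∧ IsAtom E ∧ rank E ≤ r ∧
      ¬ Large ρ ι C f δ' E}.Infinite := hcon
  obtain ⟨E, hE, hind⟩ := exists_seq (⊥ : IntermediateField K (Kbar K)) inferInstance _ hinf
    (fun E hE => hE.1) (fun E hE => bot_lt_iff_ne_bot.2 hE.2.1.1) (fun N hN _ => by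
      refine (finite_sub N).subset ?_
      rintro E ⟨hE, hne⟩
      have h1 : E ⊓ N = E := by
        by_contra h2
        exact hne (hE.2.1.2 _ (lt_of_le_of_ne inf_le_left h2))
      exact inf_eq_left.1 h1)
  haveI : CompactSpace C := isCompact_iff_compactSpace.mp hC.compact
  obtain ⟨B, hB'⟩ := isCompact_univ.exists_bound_of_continuousOn hf.continuousOn
  have hB : ∀ c, ‖f c‖ ≤ B := fun c => hB' c trivial
  have hd : 0 < (δ - δ') ^ 2 := by
    have : 0 < δ - δ' := by linarith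
    positivity
  have hr0 : (0 : ℝ) < r := by
    haveI := (hE 0).1
    have h1 := rank_ge_two (E 0) (hE 0).2.1.1
    have h2 := (hE 0).2.2.1
    have : 0 < r := by omega
    exact_mod_cast this
  obtain ⟨n, hn⟩ := exists_nat_gt (4 * B ^ 2 * r / (δ - δ') ^ 2)
  have hnf : ∀ i : Fin n, NumberField (E i) := fun i => by
    haveI := (hE i).1
    exact NumberField.of_module_finite K _
  obtain ⟨i, hi⟩ := core ρ ι hsymp hunr (fun i : Fin n => E i) hnf (by
    intro i j hij
    have h1 := hind i j (fun h => hij (Fin.ext h))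
    rw [IntermediateField.fixingSubgroup_bot, Subgroup.relIndex_top_right,
      Subgroup.relIndex_top_right, Subgroup.relIndex_top_right,
      ← IntermediateField.fixingSubgroup_sup, idx, idx, idx] at h1
    exact h1) C hC x hx μ f hf hcl B hB δ δ' hδ (by
    have h1 : ∀ i : Fin n, ((r : ℝ))⁻¹ ≤ ((rank (E i) : ℝ) - 1)⁻¹ := by
      intro i
      haveI := (hE i).1
      have h1 := rank_ge_two (E i) (hE i).2.1.1
      have h2 := (hE i).2.2.1
      have h3 : (2 : ℝ) ≤ (rank (E i) : ℝ) := by exact_mod_cast h1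
      have h4 : (rank (E i) : ℝ) ≤ (r : ℝ) := by exact_mod_cast h2
      exact inv_anti₀ (by linarith) (by linarith)
    have h2 : (n : ℝ) * ((r : ℝ))⁻¹ ≤ ∑ i : Fin n, ((rank (E i) : ℝ) - 1)⁻¹ := by
      have h3 := Finset.sum_le_sum fun (i : Fin n) (_ : i ∈ Finset.univ) => h1 i
      rw [Finset.sum_const, Finset.card_univ, Fintype.card_fin, nsmul_eq_mul] at h3
      exact h3
    rw [div_lt_iff₀ hd] at hn
    refine lt_of_lt_of_le ?_ (mul_le_mul_of_nonneg_right h2 hd.le)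
    have h5 : (n : ℝ) * (r : ℝ)⁻¹ * (δ - δ') ^ 2 = (n * (δ - δ') ^ 2) / r := by
      field_simp
    rw [h5, lt_div_iff₀ hr0]
    exact hn) hfr
  exact (hE i).2.2.2 hi

/-- The descent from a set of primitive extensions of bounded rank. -/
theorem descent_primitive (hsymp : IsSymplectic ρ) (hunr : IsUnramified K (Kbar K) ρ) (r : ℕ)
    (hinf : {E : IntermediateField K (Kbar K) | IsAtom E ∧ rank E ≤ r ∧ Holds ρ ι E}.Infinite) :
    SatoTate K (Kbar K) (extend ρ ι) := by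
  intro C hC x hx _ _ μ _ _ f hf hcl
  rw [Metric.tendsto_nhds]
  intro δ hδ
  by_contra hcon
  have hfr : ∃ᶠ N in atTop, δ ≤ ‖disc K μ x f N‖ := by
    intro h
    refine hcon ?_
    filter_upwards [h] with N hN
    rw [dist_eq_norm]
    exact not_le.1 hN
  refine hinf ((zero_one ρ ι hsymp hunr r C hC x hx μ f hf hcl δ (δ / 2) (by linarith) hfr).subset
    ?_)
  rintro E ⟨h1, h2, h3⟩
  haveI := h3.1
  exact ⟨finite_of E, h1, h2, not_large hf hcl (by linarith) h3⟩

/-- The descent from a family with a divergent sum. -/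
theorem descent_sum (hsymp : IsSymplectic ρ) (hunr : IsUnramified K (Kbar K) ρ)
    {I : Type} (E : I → IntermediateField K (Kbar K)) (hE : ∀ i, Holds ρ ι (E i))
    (hdis : ∀ i j, i ≠ j → Module.finrank K (E i ⊔ E j : IntermediateField K (Kbar K)) =
      Module.finrank K (E i) * Module.finrank K (E j))
    (hsum : ¬ Summable fun i => ((rank (E i) : ℝ) - 1)⁻¹) :
    SatoTate K (Kbar K) (extend ρ ι) := by
  intro C hC x hx _ _ μ _ _ f hf hcl
  rw [Metric.tendsto_nhds]
  intro δ hδ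
  by_contra hcon
  have hfr : ∃ᶠ N in atTop, δ ≤ ‖disc K μ x f N‖ := by
    intro h
    refine hcon ?_
    filter_upwards [h] with N hN
    rw [dist_eq_norm]
    exact not_le.1 hN
  haveI : CompactSpace C := isCompact_iff_compactSpace.mp hC.compact
  obtain ⟨B, hB'⟩ := isCompact_univ.exists_bound_of_continuousOn hf.continuousOn
  have hB : ∀ c, ‖f c‖ ≤ B := fun c => hB' c trivial
  have hnn : ∀ i, (0 : ℝ) ≤ ((rank (E i) : ℝ) - 1)⁻¹ := fun i => by
    haveI := (hE i).1
    haveI := finite_of (E i)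
    have h := rank_pos (E i)
    have h1 : (1 : ℝ) ≤ (rank (E i) : ℝ) := by exact_mod_cast h
    exact inv_nonneg.2 (by linarith)
  have hd : 0 < (δ - δ / 2) ^ 2 := by
    have : 0 < δ - δ / 2 := by linarith
    positivity
  obtain ⟨s, hs⟩ : ∃ s : Finset I, 4 * B ^ 2 / (δ - δ / 2) ^ 2 <
      ∑ i ∈ s, ((rank (E i) : ℝ) - 1)⁻¹ := by
    by_contra hno
    push Not at hno
    exact hsum (summable_of_sum_le hnn hno)
  obtain ⟨i, hi⟩ := core ρ ι hsymp hunr (fun i : s => E i) (fun i => (hE i).1) (by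
    intro i j hij
    exact hdis i j (fun h => hij (Subtype.ext h))) C hC x hx μ f hf hcl B hB δ (δ / 2) (by linarith) (by
    rw [div_lt_iff₀ hd] at hs
    refine lt_of_lt_of_eq hs ?_
    congr 1
    exact (Finset.sum_coe_sort s fun i => ((rank (E i) : ℝ) - 1)⁻¹).symm) hfr
  exact not_large hf hcl (by linarith) (hE i) hi

end Pool.Agent.L0h51.RK
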