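import Pool.Agent.K4H53.SI.Hr
import Pool.Agent.K4H53.SI.Un

/-! The rank of a permutation representation and Bessel's inequality with general weights. -/

set_option autoImplicit false
set_option maxHeartbeats 400000
set_option linter.style.haveILetI false

namespace Pool.Agent.L0h51.RK

open Pool.Agent.K4H40.ST Pool.Agent.K4H40.ST.Haar
open Pool.Agent.K4H53.SI
open MeasureTheory Filter Topology

/-- The rank of the permutation action of `G` on the cosets of `H`: the number of the orbits of `G` on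
the pairs of cosets. -/
noncomputable def rk {G : Type} [Group G] (H : Subgroup G) : ℕ :=
  Nat.card (MulAction.orbitRel.Quotient G ((G ⧸ H) × (G ⧸ H)))

section fin

variable {A : Type} [Group A] [Fintype A]

open Classical in
theorem sum_sq_rk (H : Subgroup A) : ∑ a, fx H a * fx H a = (rk H : ℝ) * (Nat.card A : ℝ) := by
  have h := MulAction.sum_card_fixedBy_eq_card_orbits_mul_card_group A ((A ⧸ H) × (A ⧸ H))
  have h2 : ∀ a : A, fx H a * fx H a =
      (Fintype.card (MulAction.fixedBy ((A ⧸ H) × (A ⧸ H)) a) : ℝ) := by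
    intro a
    unfold fx
    rw [← Nat.cast_mul, ← Nat.card_prod, ← Nat.card_eq_fintype_card]
    congr 1
    refine Nat.card_congr ⟨fun q => ⟨(q.1.1, q.2.1), Prod.ext q.1.2 q.2.2⟩,
      fun q => (⟨q.1.1, congrArg Prod.fst q.2⟩, ⟨q.1.2, congrArg Prod.snd q.2⟩),
      fun q => rfl, fun q => rfl⟩
  rw [Finset.sum_congr rfl fun a _ => h2 a, ← Nat.cast_sum, h, ← Nat.card_eq_fintype_card,
    ← Nat.card_eq_fintype_card, Nat.cast_mul]
  rfl

theorem var_rk (H : Subgroup A) :
    (∑ a : A, (fx H a - 1) * (fx H a - 1)) / (Nat.card A : ℝ) = (rk H : ℝ) - 1 := by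
  have hA' : (0 : ℝ) < (Nat.card A : ℝ) := by exact_mod_cast Nat.card_pos
  have h0 : ∑ a, (fx H a - 1) * (fx H a - 1) =
      ∑ a, fx H a * fx H a - (Nat.card A : ℝ) := by
    have h1 : ∀ a, (fx H a - 1) * (fx H a - 1) =
        fx H a * fx H a - fx H a - fx H a + 1 := fun a => by ring
    simp_rw [h1]
    rw [Finset.sum_add_distrib, Finset.sum_sub_distrib, Finset.sum_sub_distrib, sum_fx,
      Finset.sum_const, Finset.card_univ, ← Nat.card_eq_fintype_card, nsmul_eq_mul]
    ring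
  rw [h0, sum_sq_rk]
  field_simp

end fin

/-- The rank of the image in a quotient. -/
theorem rk_comap {G A : Type} [Group G] [Group A] (π : G →* A) (hπ : Function.Surjective π)
    (C : Subgroup A) : rk (C.comap π) = rk C := by
  let f : G ⧸ (C.comap π) → A ⧸ C :=
    Quotient.lift (fun γ : G => (QuotientGroup.mk (π γ) : A ⧸ C)) (by
      intro a b hab
      have h1 : a⁻¹ * b ∈ C.comap π := QuotientGroup.leftRel_apply.mp hab
      rw [QuotientGroup.eq, ← map_inv, ← map_mul]
      exact h1)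
  have hf : ∀ γ : G, f (QuotientGroup.mk γ) = QuotientGroup.mk (π γ) := fun _ => rfl
  have hinj : Function.Injective f := by
    intro x y hxy
    obtain ⟨a, rfl⟩ := QuotientGroup.mk_surjective x
    obtain ⟨b, rfl⟩ := QuotientGroup.mk_surjective y
    rw [hf, hf, QuotientGroup.eq, ← map_inv, ← map_mul] at hxy
    rw [QuotientGroup.eq]
    exact hxy
  have hsurj : Function.Surjective f := by
    intro y
    obtain ⟨a, rfl⟩ := QuotientGroup.mk_surjective y
    obtain ⟨γ, rfl⟩ := hπ a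
    exact ⟨QuotientGroup.mk γ, rfl⟩
  have heq : ∀ (σ : G) x, f (σ • x) = π σ • f x := by
    intro σ x
    obtain ⟨a, rfl⟩ := QuotientGroup.mk_surjective x
    change f (QuotientGroup.mk (σ * a)) = π σ • QuotientGroup.mk (π a)
    rw [hf, map_mul]
    rfl
  let e := Equiv.ofBijective f ⟨hinj, hsurj⟩
  unfold rk
  refine Nat.card_congr (Quotient.congr (e.prodCongr e) fun x y => ?_)
  change (x ∈ MulAction.orbit G y) ↔ ((e.prodCongr e) x ∈ MulAction.orbit A ((e.prodCongr e) y))
  constructor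
  · rintro ⟨σ, hσ⟩
    refine ⟨π σ, ?_⟩
    have hσ' : σ • y = x := hσ
    rw [← hσ']
    change π σ • (f y.1, f y.2) = (f (σ • y).1, f (σ • y).2)
    rw [Prod.smul_fst, Prod.smul_snd, heq, heq]
    rfl
  · rintro ⟨a, ha⟩
    obtain ⟨σ, rfl⟩ := hπ a
    refine ⟨σ, ?_⟩
    have ha' : π σ • (f y.1, f y.2) = (f x.1, f x.2) := ha
    have h1 : π σ • f y.1 = f x.1 := congrArg Prod.fst ha'
    have h2 : π σ • f y.2 = f x.2 := congrArg Prod.snd ha'
    rw [← heq] at h1 h2
    exact Prod.ext (hinj h1) (hinj h2)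

open Classical in
/-- Bessel's inequality for the Haar integrals, with general weights. -/
theorem haar_bessel_w {G : Type} [Group G] [TopologicalSpace G] [IsTopologicalGroup G]
    [CompactSpace G]
    [T2Space G] [SecondCountableTopology G] [MeasurableSpace G] [BorelSpace G]
    (μ : Measure G) [IsProbabilityMeasure μ] [μ.IsMulLeftInvariant]
    {A Q : Type} [Group A] [Fintype A] [Group Q] [Finite Q]
    (β : G →* Q) (hβ : Function.Surjective β) (hβo : IsOpen (β.ker : Set G))
    (α : A →* Q) (hα : Function.Surjective α)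
    {ι : Type} (s : Finset ι) (H : ι → Subgroup A)
    (w : ι → ℝ) (hw : ∀ i ∈ s, 0 ≤ w i) (hwv : ∀ i ∈ s, w i * ((rk (H i) : ℝ) - 1) ≤ 1)
    (hind : ∀ i ∈ s, ∀ j ∈ s, i ≠ j → (H i ⊓ H j).index = (H i).index * (H j).index)
    (D : ι → Type) [∀ i, Group (D i)] [∀ i, TopologicalSpace (D i)] [∀ i, IsTopologicalGroup (D i)]
    [∀ i, CompactSpace (D i)] [∀ i, T2Space (D i)] [∀ i, MeasurableSpace (D i)]
    [∀ i, BorelSpace (D i)] (ν : ∀ i, Measure (D i)) [∀ i, IsProbabilityMeasure (ν i)]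
    [∀ i, (ν i).IsMulLeftInvariant]
    (j : ∀ i, D i →* G) (hj : ∀ i, Continuous (j i))
    (hjr : ∀ i, (j i).range = ((H i).map α).comap β)
    (f : G → ℂ) (hf : Continuous f) (hcl : ∀ g h, f (h * g * h⁻¹) = f g)
    (B : ℝ) (hB : ∀ g, ‖f g‖ ≤ B) :
    ∑ i ∈ s, w i * ‖∫ d, f (j i d) ∂(ν i) - ∫ g, f g ∂μ‖ ^ 2 ≤ B ^ 2 := by
  have h1 : (Nat.card A : ℂ) * ∫ g, f g ∂μ = (Nat.card Q : ℂ) * ∑ a, Phi μ β f (α a) := by
    have h := int_sub μ β hβ hβo α ⊤ G μ (MonoidHom.id G) continuous_id (by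
      rw [MonoidHom.range_eq_top_of_surjective _ Function.surjective_id,
        Subgroup.map_top_of_surjective α hα, Subgroup.comap_top]) f hf hcl
    change (Nat.card A : ℂ) * ∫ g, f g ∂μ = _ at h
    rw [h]
    congr 1
    refine Finset.sum_congr rfl fun a _ => ?_
    have h0 : Nat.card {x : A ⧸ (⊤ : Subgroup A) // a • x = x} = 1 := by
      rw [Nat.card_eq_one_iff_unique]
      have hs : Subsingleton (A ⧸ (⊤ : Subgroup A)) := QuotientGroup.subsingleton_quotient_top
      exact ⟨⟨fun x y => Subtype.ext (Subsingleton.elim _ _)⟩,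
        ⟨⟨QuotientGroup.mk 1, Subsingleton.elim _ _⟩⟩⟩
    rw [h0, Nat.cast_one, mul_one]
  have h2 : ∀ i, (Nat.card A : ℂ) * ∫ d, f (j i d) ∂(ν i) =
      (Nat.card Q : ℂ) * ∑ a, Phi μ β f (α a) * (Nat.card {x : A ⧸ H i // a • x = x} : ℂ) :=
    fun i => int_sub μ β hβ hβo α (H i) (D i) (ν i) (j i) (hj i) (hjr i) f hf hcl
  have hA' : (0 : ℝ) < (Nat.card A : ℝ) := by exact_mod_cast Nat.card_pos
  have hAc : (Nat.card A : ℂ) ≠ 0 := by exact_mod_cast Nat.card_pos.ne'
  have hQ' : (0 : ℝ) < (Nat.card Q : ℝ) := by exact_mod_cast Nat.card_pos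
  have h3 : ∀ i, ∫ d, f (j i d) ∂(ν i) - ∫ g, f g ∂μ =
      (∑ a : A, ((Nat.card Q : ℂ) * Phi μ β f (α a)) * ((fx (H i) a - 1 : ℝ) : ℂ)) /
        ((Nat.card A : ℝ) : ℂ) := by
    intro i
    rw [Complex.ofReal_natCast, eq_div_iff hAc, mul_comm, mul_sub, h1, h2 i, ← mul_sub,
      ← Finset.sum_sub_distrib, Finset.mul_sum]
    refine Finset.sum_congr rfl fun a _ => ?_
    unfold fx
    push_cast
    ring
  have hcov : ∀ i ∈ s, ∀ k ∈ s, |(∑ a : A, (fx (H i) a - 1) * (fx (H k) a - 1)) /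
      (Nat.card A : ℝ) - if i = k then (∑ a : A, (fx (H i) a - 1) * (fx (H i) a - 1)) /
        (Nat.card A : ℝ) else 0| ≤ 0 := by
    intro i hi k hk
    by_cases hik : i = k
    · subst hik
      rw [if_pos rfl, sub_self, abs_zero]
    · have h0 : ∑ a, (fx (H i) a - 1) * (fx (H k) a - 1) =
          ∑ a, fx (H i) a * fx (H k) a - (Nat.card A : ℝ) := by
        have h1 : ∀ a, (fx (H i) a - 1) * (fx (H k) a - 1) =
            fx (H i) a * fx (H k) a - fx (H i) a - fx (H k) a + 1 := fun a => by ring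
        simp_rw [h1]
        rw [Finset.sum_add_distrib, Finset.sum_sub_distrib, Finset.sum_sub_distrib, sum_fx, sum_fx,
          Finset.sum_const, Finset.card_univ, ← Nat.card_eq_fintype_card, nsmul_eq_mul]
        ring
      rw [if_neg hik, h0, sum_mul _ _ (hind i hi k hk hik), sub_self, zero_div, sub_zero, abs_zero]
  have h5 := bessel_complex (Finset.univ : Finset A) s
    (fun a => (Nat.card Q : ℂ) * Phi μ β f (α a)) (fun i a => fx (H i) a - 1) (Nat.card A : ℝ) hA'
    w
    (fun i => (∑ a : A, (fx (H i) a - 1) * (fx (H i) a - 1)) / (Nat.card A : ℝ))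
    hw (fun i hi => by rw [var_rk]; exact hwv i hi) 0 le_rfl hcov B (fun a => by
      rw [norm_mul, Complex.norm_natCast]
      refine (mul_le_mul_of_nonneg_left (Phi_norm μ β hβ hβo hB _) hQ'.le).trans (le_of_eq ?_)
      field_simp)
  rw [zero_mul, sub_zero, mul_one, Finset.card_univ, ← Nat.card_eq_fintype_card,
    div_self hA'.ne', mul_one] at h5
  refine le_trans (le_of_eq ?_) h5
  exact Finset.sum_congr rfl fun i _ => by rw [h3 i]

end Pool.Agent.L0h51.RK
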