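import Pool.Agent.K4H53.SI.Ms
import Pool.Agent.L0h51.RK.Grp

/-! The mean square comparison with the weights given by the rank. -/

set_option autoImplicit false
set_option maxHeartbeats 400000
set_option linter.style.haveILetI false

namespace Pool.Agent.L0h51.RK

open Pool.Agent.K4H40.ST Pool.Agent.K4H40.ST.Zar Pool.Agent.K4H40.ST.Main
open Pool.Agent.K4H40.ST.Haar
open Pool.Agent.K4H53.SI
open NumberField IsDedekindDomain Filter Topology MeasureTheory
open Pool.Agent.W540.BE (upto mem_upto cheb_mean)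

variable {g : ℕ} {K : Type} [Field K] [NumberField K]

/-- The mean square comparison of the discrepancies. -/
theorem mean_square_w (r : Gal(Kbar K/K) →* GL (Fin g ⊕ Fin g) ℂ)
    (hunr : {v : HeightOneSpectrum (𝓞 K) | ∃ σ, IsInert K (Kbar K) v σ ∧ r σ ≠ 1}.Finite)
    (hsim : ∀ γ, IsSim (r γ)) {ι : Type} [Fintype ι]
    (E : ι → IntermediateField K (Kbar K)) [∀ i, NumberField (E i)]
    (hind : ∀ i j, i ≠ j → ((E i).fixingSubgroup ⊓ (E j).fixingSubgroup).index =
      (E i).fixingSubgroup.index * (E j).fixingSubgroup.index)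
    (w : ι → ℝ) (hw0 : ∀ i, 0 ≤ w i)
    (hwv : ∀ i, w i * ((rk (E i).fixingSubgroup : ℝ) - 1) ≤ 1)
    (C : Subgroup (GL (Fin g ⊕ Fin g) ℂ)) (hC : IsSatoTateGroup r C)
    (x : HeightOneSpectrum (𝓞 K) → C) (hx : IsClassSystem K (Kbar K) r C x) :
    ∃ (D : ι → Subgroup (GL (Fin g ⊕ Fin g) ℂ)) (hD : ∀ i, D i ≤ C)
      (y : ∀ i, HeightOneSpectrum (𝓞 (E i)) → D i),
      (∀ i, IsSatoTateGroup (r.comp (res (E i))) (D i) ∧
        IsClassSystem (E i) (Kbar K) (r.comp (res (E i))) (D i) (y i)) ∧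
      ∀ [MeasurableSpace C] [BorelSpace C] (μ : Measure C) [IsProbabilityMeasure μ]
        [μ.IsMulLeftInvariant]
        [∀ i, MeasurableSpace (D i)] [∀ i, BorelSpace (D i)] (ν : ∀ i, Measure (D i))
        [∀ i, IsProbabilityMeasure (ν i)] [∀ i, (ν i).IsMulLeftInvariant]
        (f : C → ℂ), Continuous f → (∀ c h, f (h * c * h⁻¹) = f c) →
      ∀ B : ℝ, (∀ c, ‖f c‖ ≤ B) → ∀ ε : ℝ, 0 < ε →
      ∀ᶠ N in atTop, ∑ i, w i *
        ‖(avg (E i) (fun w => f (Subgroup.inclusion (hD i) (y i w))) N -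
            ∫ d, f (Subgroup.inclusion (hD i) d) ∂(ν i)) -
          (avg K (fun v => f (x v)) N - ∫ c, f c ∂μ)‖ ^ 2 ≤ 4 * B ^ 2 + ε := by
  classical
  haveI : CompactSpace C := isCompact_iff_compactSpace.mp hC.compact
  have hinf : ∀ T : Set (HeightOneSpectrum (𝓞 K)), T.Finite → ∃ v, v ∉ T :=
    Fld.exists_not_mem
  obtain ⟨c₀, hc₀, hs₀⟩ := Cls.exists_scal_mem r hC hx hinf
  have hfr := (Pool.Agent.W401.Frob.main K).1
  choose σ hσ using hfr
  have hfd : ∀ i, FiniteDimensional K (E i) := fun i => finite_of (E i)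
  have hopen : ∀ i, IsOpen ((E i).fixingSubgroup : Set Gal(Kbar K/K)) := fun i => by
    haveI := hfd i
    exact (E i).fixingSubgroup_isOpen
  -- an open normal subgroup in all of the groups
  obtain ⟨U, hUo, hUle⟩ : ∃ U : Subgroup Gal(Kbar K/K), IsOpen (U : Set Gal(Kbar K/K)) ∧
      ∀ i, U ≤ (E i).fixingSubgroup := by
    refine ⟨⨅ i, (E i).fixingSubgroup, ?_, fun i => iInf_le _ i⟩
    have h1 : ((⨅ i, (E i).fixingSubgroup : Subgroup Gal(Kbar K/K)) :
        Set Gal(Kbar K/K)) = ⋂ i, ((E i).fixingSubgroup : Set Gal(Kbar K/K)) := by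
      simp
    rw [h1]
    exact isOpen_iInter_of_finite fun i => hopen i
  haveI hUf : U.FiniteIndex := ⟨index_ne hUo⟩
  obtain ⟨V, hV⟩ : ∃ V : Subgroup Gal(Kbar K/K), V = U.normalCore := ⟨_, rfl⟩
  haveI hVn : V.Normal := by rw [hV]; infer_instance
  haveI hVf : V.FiniteIndex := by rw [hV]; infer_instance
  have hVo : IsOpen (V : Set Gal(Kbar K/K)) :=
    V.isOpen_of_isClosed_of_finiteIndex (by
      rw [hV]; exact U.normalCore_isClosed (U.isClosed_of_isOpen hUo))
  have hVle : ∀ i, V ≤ (E i).fixingSubgroup := fun i => by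
    rw [hV]; exact U.normalCore_le.trans (hUle i)
  haveI : Finite (Gal(Kbar K/K) ⧸ V) := Subgroup.quotient_finite_of_isOpen V hVo
  letI : Fintype (Gal(Kbar K/K) ⧸ V) := Fintype.ofFinite _
  have hA0 : (0 : ℝ) < Nat.card (Gal(Kbar K/K) ⧸ V) := by exact_mod_cast Nat.card_pos
  set HH : ι → Subgroup (Gal(Kbar K/K) ⧸ V) := fun i =>
    ((E i).fixingSubgroup).map (QuotientGroup.mk' V) with hHH
  have hcomap : ∀ i, (HH i).comap (QuotientGroup.mk' V) = (E i).fixingSubgroup := by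
    intro i
    rw [hHH]
    refine Subgroup.comap_map_eq_self ?_
    rw [QuotientGroup.ker_mk']
    exact hVle i
  have hidx : ∀ i, (HH i).index = (E i).fixingSubgroup.index := by
    intro i
    rw [← hcomap i, Subgroup.index_comap_of_surjective _ (QuotientGroup.mk'_surjective V)]
  have hidx2 : ∀ i j, i ≠ j → (HH i ⊓ HH j).index = (HH i).index * (HH j).index := by
    intro i j hij
    rw [hidx i, hidx j, ← hind i j hij, ← hcomap i, ← hcomap j, ← Subgroup.comap_inf,
      Subgroup.index_comap_of_surjective _ (QuotientGroup.mk'_surjective V)]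
  obtain ⟨Q, _, _, β, α, hβ, hβo, hα, hQ⟩ := setup hC V (index_ne hVo) hsim hc₀ hs₀
  choose y hyg hyc hyl using fun i => exists_cmp r hunr hsim hC hx σ hσ V hVo (HH i) (E i)
    (hcomap i).symm
  refine ⟨fun i => DD r C V (HH i), fun i => inf_le_left, y, fun i => ⟨hyg i, hyc i⟩, ?_⟩
  intro _ _ μ _ _ _ _ ν _ _ f hf hcl B hB ε hε
  haveI : ∀ C' : Subgroup (Gal(Kbar K/K) ⧸ V), CompactSpace (DD r C V C') := fun C' =>
    isCompact_iff_compactSpace.mp (hC.compact.inter_right (isClosed_zar _))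
  haveI : SecondCountableTopology (GL (Fin g ⊕ Fin g) ℂ) := second_countable
  haveI : SecondCountableTopology C :=
    inferInstanceAs (SecondCountableTopology (C : Set (GL (Fin g ⊕ Fin g) ℂ)))
  have hB0 : 0 ≤ B := (norm_nonneg _).trans (hB 1)
  have hrk : ∀ i, rk (HH i) = rk (E i).fixingSubgroup := fun i => by
    rw [← hcomap i, rk_comap _ (QuotientGroup.mk'_surjective V)]
  have hwv' : ∀ i, w i * ((rk (HH i) : ℝ) - 1) ≤ 1 := fun i => by rw [hrk]; exact hwv i
  have hbessel := haar_bessel_w μ β hβ hβo α hα (Finset.univ : Finset ι) HH w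
    (fun i _ => hw0 i) (fun i _ => hwv' i)
    (fun i _ j _ hij => hidx2 i j hij) (fun i => DD r C V (HH i)) ν
    (fun i => jj r C V (HH i)) (fun i => continuous_subtype_val.subtype_mk _)
    (fun i => range_jj r C V β α hQ (HH i)) f hf (fun a b => hcl a b) B hB
  -- notation
  set Dv : ι → ℝ := fun i => (∑ a : Gal(Kbar K/K) ⧸ V, (fx (HH i) a - 1) * (fx (HH i) a - 1)) /
    (Nat.card (Gal(Kbar K/K) ⧸ V) : ℝ) with hDv
  set Gm : ι → ι → ℕ → ℝ := fun i j N => (∑ v ∈ upto K N,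
    (fx (HH i) (QuotientGroup.mk (σ v)) - 1) * (fx (HH j) (QuotientGroup.mk (σ v)) - 1)) /
      (Nat.primeCounting N : ℝ) with hGm
  have hGlim : ∀ i j, Tendsto (Gm i j) atTop (𝓝 (if i = j then Dv i else 0)) := by
    intro i j
    have h1 := cheb_mean (F := K) V hVo
      (fun a => (((fx (HH i) a - 1) * (fx (HH j) a - 1) : ℝ) : ℂ))
      (fun a b => by simp only [fx_conj]) σ hσ
    have h2 := (Complex.continuous_re.tendsto _).comp h1
    have h3 : ((Nat.card (Gal(Kbar K/K) ⧸ V) : ℂ)⁻¹ * ∑ᶠ q : Gal(Kbar K/K) ⧸ V,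
        (((fx (HH i) q - 1) * (fx (HH j) q - 1) : ℝ) : ℂ)).re = if i = j then Dv i else 0 := by
      rw [finsum_eq_sum_of_fintype, ← Complex.ofReal_sum, ← Complex.ofReal_natCast,
        ← Complex.ofReal_inv, ← Complex.ofReal_mul, Complex.ofReal_re]
      by_cases hij : i = j
      · subst hij
        rw [if_pos rfl, hDv, inv_mul_eq_div]
      · have h0 : ∑ a, (fx (HH i) a - 1) * (fx (HH j) a - 1) =
            ∑ a, fx (HH i) a * fx (HH j) a - (Nat.card (Gal(Kbar K/K) ⧸ V) : ℝ) := by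
          have h1 : ∀ a, (fx (HH i) a - 1) * (fx (HH j) a - 1) =
              fx (HH i) a * fx (HH j) a - fx (HH i) a - fx (HH j) a + 1 := fun a => by ring
          simp_rw [h1]
          rw [Finset.sum_add_distrib, Finset.sum_sub_distrib, Finset.sum_sub_distrib, sum_fx,
            sum_fx, Finset.sum_const, Finset.card_univ, ← Nat.card_eq_fintype_card, nsmul_eq_mul]
          ring
        rw [if_neg hij, h0, sum_mul _ _ (hidx2 i j hij), sub_self, mul_zero]
    rw [h3] at h2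
    refine h2.congr fun N => ?_
    change ((∑ v ∈ upto K N, (((fx (HH i) (QuotientGroup.mk (σ v)) - 1) *
      (fx (HH j) (QuotientGroup.mk (σ v)) - 1) : ℝ) : ℂ)) / (Nat.primeCounting N : ℂ)).re = _
    rw [← Complex.ofReal_sum, ← Complex.ofReal_natCast, ← Complex.ofReal_div, Complex.ofReal_re]
  set η : ℕ → ℝ := fun N => ∑ i, ∑ j, |Gm i j N - if i = j then Dv i else 0| with hη
  have hηlim : Tendsto η atTop (𝓝 0) := by
    have h1 : Tendsto (fun N => ∑ i, ∑ j, |Gm i j N - if i = j then Dv i else 0|) atTop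
        (𝓝 (∑ _i : ι, ∑ _j : ι, (0 : ℝ))) := by
      refine tendsto_finsetSum _ fun i _ => tendsto_finsetSum _ fun j _ => ?_
      have h2 := (hGlim i j).sub_const (if i = j then Dv i else 0)
      rw [sub_self] at h2
      simpa using h2.abs
    simpa using h1
  have hη0 : ∀ N, 0 ≤ η N := fun N => Finset.sum_nonneg fun i _ =>
    Finset.sum_nonneg fun j _ => abs_nonneg _
  have hηle : ∀ N i j, |Gm i j N - if i = j then Dv i else 0| ≤ η N := by
    intro N i j
    refine le_trans ?_ (Finset.single_le_sum (f := fun i => ∑ j, |Gm i j N -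
      if i = j then Dv i else 0|) (fun i _ => Finset.sum_nonneg fun j _ => abs_nonneg _)
      (Finset.mem_univ i))
    exact Finset.single_le_sum (f := fun j => |Gm i j N - if i = j then Dv i else 0|)
      (fun j _ => abs_nonneg _) (Finset.mem_univ j)
  set a : ι → ℕ → ℂ := fun i N => (∑ v ∈ upto K N, f (x v) *
    ((fx (HH i) (QuotientGroup.mk (σ v)) - 1 : ℝ) : ℂ)) / ((Nat.primeCounting N : ℝ) : ℂ) with ha
  set W := ∑ i, w i with hW
  have hcardlim : Tendsto (fun N => ((upto K N).card : ℝ) / (Nat.primeCounting N : ℝ)) atTop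
      (𝓝 1) := by
    have h1 := (Complex.continuous_re.tendsto _).comp (Fld.card_div (K := K))
    rw [Complex.one_re] at h1
    refine h1.congr fun N => ?_
    change (((upto K N).card : ℂ) / (Nat.primeCounting N : ℂ)).re = _
    rw [← Complex.ofReal_natCast, ← Complex.ofReal_natCast, ← Complex.ofReal_div,
      Complex.ofReal_re]
  have hquo : Tendsto (fun N => B ^ 2 * (((upto K N).card : ℝ) / (Nat.primeCounting N : ℝ)) /
      (1 - η N * W)) atTop (𝓝 (B ^ 2)) := by
    have h1 := (hcardlim.const_mul (B ^ 2)).div ((hηlim.mul_const W).const_sub 1)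
      (by rw [zero_mul, sub_zero]; exact one_ne_zero)
    rw [mul_one, zero_mul, sub_zero, div_one] at h1
    exact h1
  have hpos : ∀ᶠ N in atTop, 0 < 1 - η N * W := by
    have h1 := (hηlim.mul_const W).const_sub 1
    rw [zero_mul, sub_zero] at h1
    exact h1.eventually_const_lt one_pos
  have hpi : ∀ᶠ N : ℕ in atTop, (0 : ℝ) < (Nat.primeCounting N : ℝ) := by
    have h1 : ∀ᶠ N : ℕ in atTop, 0 < ((upto K N).card : ℝ) / (Nat.primeCounting N : ℝ) :=
      hcardlim.eventually_const_lt one_pos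
    filter_upwards [h1] with N hN
    by_contra hcon
    have h2 : (Nat.primeCounting N : ℝ) = 0 := le_antisymm (not_lt.1 hcon) (Nat.cast_nonneg _)
    rw [h2, div_zero] at hN
    exact lt_irrefl _ hN
  have hT : ∀ᶠ N in atTop, ∑ i, w i * ‖a i N‖ ^ 2 ≤ B ^ 2 + ε / 8 := by
    have h1 : ∀ᶠ N in atTop, B ^ 2 * (((upto K N).card : ℝ) / (Nat.primeCounting N : ℝ)) /
        (1 - η N * W) < B ^ 2 + ε / 8 := hquo.eventually_lt_const (by linarith)
    filter_upwards [h1, hpos, hpi] with N h1 h2 h3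
    have h4 := bessel_complex (upto K N) (Finset.univ : Finset ι) (fun v => f (x v))
      (fun i v => fx (HH i) (QuotientGroup.mk (σ v)) - 1) (Nat.primeCounting N : ℝ) h3 w Dv
      (fun i _ => hw0 i) (fun i _ => by rw [hDv]; simp only [var_rk]; exact hwv' i) (η N) (hη0 N)
      (fun i _ j _ => hηle N i j) B (fun v => hB _)
    rw [← le_div_iff₀ h2] at h4
    exact h4.trans h1.le
  set b : ι → ℂ := fun i => ∫ d, f (jj r C V (HH i) d) ∂(ν i) - ∫ c, f c ∂μ with hb
  set z : ι → ℕ → ℂ := fun i N => (avg (E i) (fun w => f (jj r C V (HH i) (y i w))) N -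
    ∫ d, f (jj r C V (HH i) d) ∂(ν i)) - (avg K (fun v => f (x v)) N - ∫ c, f c ∂μ) with hz
  have hzz : ∀ i, Tendsto (fun N => z i N - (a i N - b i)) atTop (𝓝 0) := by
    intro i
    have h1 := (hyl i f hcl B hB).sub (avg_sub (fun v => f (x v)) B (fun v => hB _))
    rw [sub_zero] at h1
    refine h1.congr fun N => ?_
    have h2 : a i N = (∑ v ∈ upto K N, f (x v) *
        (fx (HH i) (QuotientGroup.mk (σ v)) : ℂ)) / (Nat.primeCounting N : ℂ) -
        (∑ v ∈ upto K N, f (x v)) / (Nat.primeCounting N : ℂ) := by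
      rw [← sub_div, ← Finset.sum_sub_distrib]
      simp only [ha]
      rw [Complex.ofReal_natCast]
      congr 1
      refine Finset.sum_congr rfl fun v _ => ?_
      push_cast
      ring
    rw [h2, hz, hb]
    ring
  have hδ : Tendsto (fun N => ∑ i, w i * ‖z i N - (a i N - b i)‖ ^ 2) atTop (𝓝 0) := by
    have h1 : Tendsto (fun N => ∑ i, w i * ‖z i N - (a i N - b i)‖ ^ 2) atTop
        (𝓝 (∑ i, w i * ‖(0 : ℂ)‖ ^ 2)) :=
      tendsto_finsetSum _ fun i _ => ((hzz i).norm.pow 2).const_mul (w i)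
    simpa using h1
  set τ : ℝ := ε / (4 * (4 * B ^ 2 + ε)) with hτ
  have hτ0 : 0 < τ := by positivity
  have hδ' : ∀ᶠ N in atTop, (1 + τ⁻¹) * ∑ i, w i * ‖z i N - (a i N - b i)‖ ^ 2 < ε / 4 := by
    have h1 := hδ.const_mul (1 + τ⁻¹)
    rw [mul_zero] at h1
    exact h1.eventually_lt_const (by positivity)
  filter_upwards [hT, hδ'] with N h1 h2
  have h3 : ∑ i, w i * ‖z i N‖ ^ 2 ≤ (1 + τ) * (∑ i, w i * ‖a i N - b i‖ ^ 2) +
      (1 + τ⁻¹) * ∑ i, w i * ‖z i N - (a i N - b i)‖ ^ 2 := by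
    rw [Finset.mul_sum, Finset.mul_sum, ← Finset.sum_add_distrib]
    refine Finset.sum_le_sum fun i _ => ?_
    have h4 := mul_le_mul_of_nonneg_left (sq_le (z i N) (a i N - b i) hτ0) (hw0 i)
    refine h4.trans (le_of_eq ?_)
    ring
  have h5 : ∑ i, w i * ‖a i N - b i‖ ^ 2 ≤ 4 * B ^ 2 + ε / 4 := by
    have h6 : ∑ i, w i * ‖a i N - b i‖ ^ 2 ≤
        2 * ∑ i, w i * ‖a i N‖ ^ 2 + 2 * ∑ i, w i * ‖b i‖ ^ 2 := by
      rw [Finset.mul_sum, Finset.mul_sum, ← Finset.sum_add_distrib]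
      refine Finset.sum_le_sum fun i _ => ?_
      have h4 := mul_le_mul_of_nonneg_left (sub_sq_le (a i N) (b i)) (hw0 i)
      refine h4.trans (le_of_eq ?_)
      ring
    linarith
  have h7 : (1 + τ) * (4 * B ^ 2 + ε / 4) ≤ 4 * B ^ 2 + ε / 2 := by
    have h8 : τ * (4 * (4 * B ^ 2 + ε)) = ε := by
      rw [hτ]; field_simp
    nlinarith [sq_nonneg B]
  have h9 : ∑ i, w i * ‖z i N‖ ^ 2 ≤ 4 * B ^ 2 + ε := by
    have h10 := mul_le_mul_of_nonneg_left h5 (by positivity : (0 : ℝ) ≤ 1 + τ)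
    linarith
  exact h9

end Pool.Agent.L0h51.RK
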