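import Pool.Agent.K4H53.SI.Fm
import Pool.Agent.L0h51.RK.Ms

/-! The discrepancies over primitive extensions. -/

set_option autoImplicit false
set_option maxHeartbeats 400000
set_option linter.style.haveILetI false

namespace Pool.Agent.L0h51.RK

open Pool.Agent.K4H40.ST Pool.Agent.K4H40.ST.Zar Pool.Agent.K4H40.ST.Main
open Pool.Agent.K4H53.SI
open NumberField IsDedekindDomain Filter Topology MeasureTheory

section rank

variable {G : Type} [Group G]

theorem finite_orb (H : Subgroup G) [H.FiniteIndex] :
    Finite (MulAction.orbitRel.Quotient G ((G ⧸ H) × (G ⧸ H))) := by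
  haveI : Finite (G ⧸ H) := Subgroup.finite_quotient_of_finiteIndex
  infer_instance

theorem rk_pos (H : Subgroup G) [H.FiniteIndex] : 1 ≤ rk H := by
  haveI := finite_orb H
  haveI : Nonempty (MulAction.orbitRel.Quotient G ((G ⧸ H) × (G ⧸ H))) :=
    ⟨Quotient.mk'' (QuotientGroup.mk 1, QuotientGroup.mk 1)⟩
  exact Nat.card_pos

theorem orb_eq {H : Subgroup G} {x y : (G ⧸ H) × (G ⧸ H)}
    (h : (Quotient.mk'' x : MulAction.orbitRel.Quotient G ((G ⧸ H) × (G ⧸ H))) = Quotient.mk'' y) :
    ∃ g : G, g • y = x := by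
  have h1 := Quotient.exact h
  exact h1

theorem rk_ge_two (H : Subgroup G) [H.FiniteIndex] (hH : H ≠ ⊤) : 2 ≤ rk H := by
  haveI := finite_orb H
  obtain ⟨g, hg⟩ : ∃ g, g ∉ H := by
    by_contra hcon
    push Not at hcon
    exact hH ((Subgroup.eq_top_iff' H).2 hcon)
  haveI : Nontrivial (MulAction.orbitRel.Quotient G ((G ⧸ H) × (G ⧸ H))) := by
    refine ⟨Quotient.mk'' (QuotientGroup.mk 1, QuotientGroup.mk 1),
      Quotient.mk'' (QuotientGroup.mk 1, QuotientGroup.mk g), fun h => ?_⟩
    obtain ⟨k, hk⟩ := orb_eq h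
    have h1 := congrArg Prod.fst hk
    have h2 := congrArg Prod.snd hk
    rw [Prod.smul_fst] at h1
    rw [Prod.smul_snd] at h2
    simp only at h1 h2
    have h3 : (QuotientGroup.mk 1 : G ⧸ H) = QuotientGroup.mk g := by
      have h4 := h1.trans h2.symm
      exact smul_left_cancel k h4
    rw [QuotientGroup.eq, inv_one, one_mul] at h3
    exact hg h3
  exact Finite.one_lt_card

/-- A group with a doubly transitive action is a maximal subgroup. -/
theorem eq_of_rk_two (H M : Subgroup G) (hr : rk H = 2) (h1 : H < M) : M = ⊤ := by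
  by_contra hM
  obtain ⟨g, hg⟩ : ∃ g, g ∉ M := by
    by_contra hcon
    push Not at hcon
    exact hM ((Subgroup.eq_top_iff' M).2 hcon)
  obtain ⟨m, hm, hmH⟩ := SetLike.exists_of_lt h1
  haveI hfin : Finite (MulAction.orbitRel.Quotient G ((G ⧸ H) × (G ⧸ H))) :=
    Nat.finite_of_card_ne_zero (by unfold rk at hr; rw [hr]; norm_num)
  let q : Fin 3 → MulAction.orbitRel.Quotient G ((G ⧸ H) × (G ⧸ H)) := fun i =>
    Quotient.mk'' (QuotientGroup.mk 1, QuotientGroup.mk (![1, m, g] i))
  have hq : Function.Injective q := by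
    have hkey : ∀ a b : G, (Quotient.mk'' ((QuotientGroup.mk 1 : G ⧸ H), (QuotientGroup.mk a : G ⧸ H)) :
        MulAction.orbitRel.Quotient G ((G ⧸ H) × (G ⧸ H))) =
        Quotient.mk'' (QuotientGroup.mk 1, QuotientGroup.mk b) → ∃ k ∈ H, (k * b)⁻¹ * a ∈ H := by
      intro a b hab
      obtain ⟨k, hk⟩ := orb_eq hab
      have h1 := congrArg Prod.fst hk
      have h2 := congrArg Prod.snd hk
      rw [Prod.smul_fst] at h1
      rw [Prod.smul_snd] at h2
      simp only at h1 h2
      have h3 : (QuotientGroup.mk (k * 1) : G ⧸ H) = QuotientGroup.mk 1 := h1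
      have h4 : (QuotientGroup.mk (k * b) : G ⧸ H) = QuotientGroup.mk a := h2
      rw [QuotientGroup.eq, mul_one, mul_one] at h3
      rw [QuotientGroup.eq] at h4
      exact ⟨k, (inv_mem_iff).1 h3, h4⟩
    have h01 : q 0 ≠ q 1 := by
      intro h
      obtain ⟨k, hk, h2⟩ := hkey _ _ h
      have h3 : (k * m)⁻¹ * 1 ∈ H := h2
      rw [mul_one, inv_mem_iff] at h3
      exact hmH ((Subgroup.mul_mem_cancel_left H hk).1 h3)
    have h02 : q 0 ≠ q 2 := by
      intro h
      obtain ⟨k, hk, h2⟩ := hkey _ _ h
      have h3 : (k * g)⁻¹ * 1 ∈ H := h2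
      rw [mul_one, inv_mem_iff] at h3
      exact hg (h1.le ((Subgroup.mul_mem_cancel_left H hk).1 h3))
    have h12 : q 1 ≠ q 2 := by
      intro h
      obtain ⟨k, hk, h2⟩ := hkey _ _ h
      have h3 : (k * g)⁻¹ * m ∈ H := h2
      have h4 : (k * g)⁻¹ ∈ M := (Subgroup.mul_mem_cancel_right M hm).1 (h1.le h3)
      rw [inv_mem_iff] at h4
      exact hg ((Subgroup.mul_mem_cancel_left M (h1.le hk)).1 h4)
    intro i j hij
    fin_cases i <;> fin_cases j
    · rfl
    · exact absurd hij h01
    · exact absurd hij h02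
    · exact absurd hij.symm h01
    · rfl
    · exact absurd hij h12
    · exact absurd hij.symm h02
    · exact absurd hij.symm h12
    · rfl
  have h3 := Nat.card_le_card_of_injective q hq
  rw [Nat.card_fin] at h3
  unfold rk at hr
  omega

end rank

variable {K : Type} [Field K] [NumberField K]

/-- The rank of the extension `E` of `K`: the number of the orbits of `Gal(K̄/K)` on the pairs of cosets
of `Gal(K̄/E)`, which is the number of the fields whose product is `E ⊗ E`. -/
noncomputable def rank (E : IntermediateField K (Kbar K)) : ℕ := rk E.fixingSubgroup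

theorem finiteIndex (E : IntermediateField K (Kbar K)) [FiniteDimensional K E] :
    E.fixingSubgroup.FiniteIndex :=
  ⟨Main.index_ne E.fixingSubgroup_isOpen⟩

theorem rank_pos (E : IntermediateField K (Kbar K)) [FiniteDimensional K E] : 1 ≤ rank E := by
  haveI := finiteIndex E
  exact rk_pos _

theorem rank_ge_two (E : IntermediateField K (Kbar K)) [FiniteDimensional K E] (hE : E ≠ ⊥) :
    2 ≤ rank E := by
  haveI := finiteIndex E
  refine rk_ge_two _ fun h => hE ?_
  have h2 := congrArg IntermediateField.fixedField h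
  rw [InfiniteGalois.fixedField_fixingSubgroup] at h2
  rw [h2]
  exact InfiniteGalois.fixedField_bot

theorem atom_of_rank_two (E : IntermediateField K (Kbar K)) (hE : rank E = 2) : IsAtom E := by
  constructor
  · rintro rfl
    unfold rank at hE
    rw [IntermediateField.fixingSubgroup_bot] at hE
    haveI : Subsingleton (MulAction.orbitRel.Quotient Gal(Kbar K/K)
        ((Gal(Kbar K/K) ⧸ (⊤ : Subgroup Gal(Kbar K/K))) ×
          (Gal(Kbar K/K) ⧸ (⊤ : Subgroup Gal(Kbar K/K))))) := by
      haveI := QuotientGroup.subsingleton_quotient_top (G := Gal(Kbar K/K))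
      exact Quotient.instSubsingletonQuotient _
    have h1 : rk (⊤ : Subgroup Gal(Kbar K/K)) ≤ 1 := Finite.card_le_one_iff_subsingleton.2 this
    omega
  · intro F hF
    have h1 : E.fixingSubgroup < F.fixingSubgroup := by
      refine lt_of_le_of_ne (IntermediateField.fixingSubgroup_antitone hF.le) fun h => hF.ne ?_
      have h2 := congrArg IntermediateField.fixedField h
      rw [InfiniteGalois.fixedField_fixingSubgroup, InfiniteGalois.fixedField_fixingSubgroup] at h2
      exact h2.symm
    have h2 := eq_of_rk_two _ _ hE h1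
    have h3 := congrArg IntermediateField.fixedField h2
    rw [InfiniteGalois.fixedField_fixingSubgroup] at h3
    rw [h3]
    exact InfiniteGalois.fixedField_bot

end Pool.Agent.L0h51.RK
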