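import Mathlib
import Pool.Agent.W215.FM.Gen

/-! The group of the polynomial `X ^ n - X - 1` over `ℚ` is the symmetric group. -/

set_option autoImplicit false
set_option maxHeartbeats 400000
set_option linter.style.haveILetI false

namespace Pool.Agent.L0h51.RK

open Polynomial NumberField

section coll

variable (k : Type) [CommRing k] [IsDomain k] (n : ℕ)

omit [IsDomain k] in
theorem map_sel : ((X ^ n - X - 1 : ℤ[X]).map (algebraMap ℤ k)) = X ^ n - X - 1 := by
  simp

theorem deg_aux : (X + 1 : k[X]).natDegree = 1 := by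
  have : (X + 1 : k[X]) = X + C 1 := by simp
  rw [this, natDegree_X_add_C]

theorem deg_sel (hn : 2 ≤ n) : (X ^ n - X - 1 : k[X]).natDegree = n := by
  have h1 : (X ^ n - X - 1 : k[X]) = X ^ n - (X + 1) := by ring
  rw [h1, natDegree_sub_eq_left_of_natDegree_lt]
  · exact natDegree_X_pow n
  · rw [deg_aux, natDegree_X_pow]
    omega

theorem ne_sel (hn : 2 ≤ n) : (X ^ n - X - 1 : k[X]) ≠ 0 := by
  intro h
  have := deg_sel k n hn
  rw [h, natDegree_zero] at this
  omega

omit [IsDomain k] in
theorem der_sel : derivative (X ^ n - X - 1 : k[X]) = C (n : k) * X ^ (n - 1) - 1 := by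
  rw [derivative_sub, derivative_sub, derivative_X_pow, derivative_X, derivative_one, sub_zero]

omit [IsDomain k] in
theorem der2_sel : derivative (derivative (X ^ n - X - 1 : k[X])) =
    C (n : k) * (C ((n - 1 : ℕ) : k) * X ^ (n - 1 - 1)) := by
  rw [der_sel, derivative_sub, derivative_one, sub_zero, derivative_C_mul, derivative_X_pow]

theorem double_root (hn : 2 ≤ n) (x : k) (hx : 2 ≤ (X ^ n - X - 1 : k[X]).rootMultiplicity x) :
    ((n : k) - 1) * x = - (n : k) ∧ (n : k) * x ^ (n - 1) = 1 := by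
  have h0 := ne_sel k n hn
  have h1 : (X - C x) ^ 2 ∣ (X ^ n - X - 1 : k[X]) :=
    (le_rootMultiplicity_iff h0).1 hx
  have h2 : (X - C x) ∣ (X ^ n - X - 1 : k[X]) := (dvd_pow_self _ two_ne_zero).trans h1
  have h3 : (X - C x) ^ (2 - 1) ∣ derivative (X ^ n - X - 1 : k[X]) :=
    pow_sub_one_dvd_derivative_of_pow_dvd h1
  rw [pow_one] at h3
  rw [dvd_iff_isRoot] at h2 h3
  have h4 : x ^ n - x - 1 = 0 := by
    have := h2
    simpa [IsRoot.def] using this
  have h5 : (n : k) * x ^ (n - 1) - 1 = 0 := by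
    rw [der_sel, IsRoot.def, eval_sub, eval_mul, eval_C, eval_pow, eval_X, eval_one] at h3
    exact h3
  have h6 : x ^ n = x ^ (n - 1) * x := by
    rw [← pow_succ]
    congr 1
    omega
  refine ⟨?_, by linear_combination h5⟩
  rw [h6] at h4
  linear_combination -(n : k) * h4 + x * h5

theorem no_triple (hn : 2 ≤ n) (x : k) : (X ^ n - X - 1 : k[X]).rootMultiplicity x ≤ 2 := by
  by_contra hcon
  have h3 : 3 ≤ (X ^ n - X - 1 : k[X]).rootMultiplicity x := by omega
  obtain ⟨h4, h5⟩ := double_root k n hn x (by omega)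
  have h0 := ne_sel k n hn
  have h1 : (X - C x) ^ 3 ∣ (X ^ n - X - 1 : k[X]) :=
    (le_rootMultiplicity_iff h0).1 h3
  have h2 : (X - C x) ^ (3 - 1) ∣ derivative (X ^ n - X - 1 : k[X]) :=
    pow_sub_one_dvd_derivative_of_pow_dvd h1
  have h6 : (X - C x) ^ (3 - 1 - 1) ∣ derivative (derivative (X ^ n - X - 1 : k[X])) :=
    pow_sub_one_dvd_derivative_of_pow_dvd h2
  have h7 : (X - C x) ∣ derivative (derivative (X ^ n - X - 1 : k[X])) := by
    have h8 : 3 - 1 - 1 = 1 := rfl
    rw [h8, pow_one] at h6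
    exact h6
  rw [dvd_iff_isRoot] at h7
  have h9 : (n : k) * (((n - 1 : ℕ) : k) * x ^ (n - 1 - 1)) = 0 := by
    rw [der2_sel, IsRoot.def, eval_mul, eval_C, eval_mul, eval_C, eval_pow, eval_X] at h7
    exact h7
  have hn1 : ((n - 1 : ℕ) : k) = (n : k) - 1 := by
    rw [Nat.cast_sub (by omega), Nat.cast_one]
  rw [hn1] at h9
  have hn0 : (n : k) ≠ 0 := by
    intro h
    rw [h, zero_mul] at h5
    exact zero_ne_one h5
  have hx0 : x ^ (n - 1) ≠ 0 := by
    intro h
    rw [h, mul_zero] at h5
    exact zero_ne_one h5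
  have hx : x ^ (n - 1 - 1) ≠ 0 := by
    intro h
    have : x = 0 := eq_zero_of_pow_eq_zero h
    rw [this, zero_pow (by omega)] at hx0
    exact hx0 rfl
  have h10 : (n : k) - 1 = 0 := by
    rcases mul_eq_zero.1 h9 with h | h
    · exact absurd h hn0
    · rcases mul_eq_zero.1 h with h | h
      · exact h
      · exact absurd h hx
  rw [h10, zero_mul] at h4
  exact hn0 (by linear_combination h4)

/-- at most one collision of the roots -/
theorem collisions (hn : 2 ≤ n)
    (hs : ((X ^ n - X - 1 : ℤ[X]).map (algebraMap ℤ k)).Splits) :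
    n ≤ ((X ^ n - X - 1 : ℤ[X]).rootSet k).ncard + 1 := by
  classical
  rw [map_sel] at hs
  have h1 := hs.natDegree_eq_card_roots
  rw [deg_sel k n hn] at h1
  have h2 : ((X ^ n - X - 1 : ℤ[X]).rootSet k).ncard = (X ^ n - X - 1 : k[X]).roots.toFinset.card := by
    rw [rootSet_def, aroots_def, map_sel, Set.ncard_coe_finset]
  rw [h2]
  set T := (X ^ n - X - 1 : k[X]).roots.toFinset with hT
  have h3 : n = ∑ x ∈ T, (X ^ n - X - 1 : k[X]).roots.count x := by
    rw [hT, Multiset.toFinset_sum_count_eq]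
    exact h1
  have h4 : ∀ x ∈ T, (X ^ n - X - 1 : k[X]).roots.count x ≤
      1 + if ((n : k) - 1) * x = - (n : k) then 1 else 0 := by
    intro x _
    rw [count_roots]
    by_cases h5 : 2 ≤ (X ^ n - X - 1 : k[X]).rootMultiplicity x
    · rw [if_pos (double_root k n hn x h5).1]
      exact no_triple k n hn x
    · split_ifs <;> omega
  have h5 : (T.filter fun x => ((n : k) - 1) * x = - (n : k)).card ≤ 1 := by
    rw [Finset.card_le_one]
    intro a ha b hb
    have ha' := (Finset.mem_filter.1 ha).2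
    have hb' := (Finset.mem_filter.1 hb).2
    have h6 : ((n : k) - 1) * (a - b) = 0 := by linear_combination ha' - hb'
    rcases mul_eq_zero.1 h6 with h7 | h7
    · exfalso
      rw [h7, zero_mul] at ha'
      have : (1 : k) = 0 := by linear_combination ha' - h7
      exact one_ne_zero this
    · exact sub_eq_zero.1 h7
  calc n = ∑ x ∈ T, (X ^ n - X - 1 : k[X]).roots.count x := h3
    _ ≤ ∑ x ∈ T, (1 + if ((n : k) - 1) * x = - (n : k) then 1 else 0) := Finset.sum_le_sum h4
    _ = T.card + (T.filter fun x => ((n : k) - 1) * x = - (n : k)).card := by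
        rw [Finset.sum_add_distrib, Finset.card_filter, Finset.sum_const, smul_eq_mul, mul_one]
    _ ≤ T.card + 1 := by omega

end coll

end Pool.Agent.L0h51.RK
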