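import Pool.Agent.L0h51.RK.Sel

/-! The absolute Galois groups of number fields act doubly transitively on the roots of
`X ^ n - X - 1` for large `n`. -/

set_option autoImplicit false
set_option maxHeartbeats 400000
set_option linter.style.haveILetI false

namespace Pool.Agent.L0h51.RK

open Polynomial NumberField

theorem monic_sel (k : Type) [CommRing k] [IsDomain k] (n : ℕ) (hn : 2 ≤ n) :
    (X ^ n - X - 1 : k[X]).Monic := by
  have h4 : (X ^ n - X - 1 : k[X]) = X ^ n - (X + 1) := by ring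
  rw [h4]
  refine monic_X_pow_sub ?_
  have h5 : (X + 1 : k[X]) = X + C 1 := by simp
  rw [h5, degree_X_add_C]
  exact_mod_cast (by omega : 1 < n)

section surj

variable (n : ℕ) (hn : 2 ≤ n) (L : Type) [Field L] [NumberField L] [inst : Algebra ℚ L]
  [IsGalois ℚ L]

include hn

omit [IsGalois ℚ L] [NumberField L] in
theorem sel_splits (hL : ((X ^ n - X - 1 : ℚ[X]).map (algebraMap ℚ L)).Splits) :
    ((X ^ n - X - 1 : ℤ[X]).map (algebraMap ℤ (𝓞 L))).Splits := by
  refine Splits.of_splits_map_of_injective (i := algebraMap (𝓞 L) L)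
    RingOfIntegers.coe_injective ?_ ?_
  · have h1 : ((X ^ n - X - 1 : ℤ[X]).map (algebraMap ℤ (𝓞 L))).map (algebraMap (𝓞 L) L) =
        (X ^ n - X - 1 : ℚ[X]).map (algebraMap ℚ L) := by simp
    rw [h1]
    exact hL
  · intro a ha
    have h1 : ((X ^ n - X - 1 : ℤ[X]).map (algebraMap ℤ (𝓞 L))).map (algebraMap (𝓞 L) L) =
        (X ^ n - X - 1 : L[X]) := by simp
    rw [h1, mem_roots (ne_sel L n hn)] at ha
    have h2 : a ^ n - a - 1 = 0 := by
      rw [IsRoot.def, eval_sub, eval_sub, eval_pow, eval_X, eval_one] at ha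
      exact ha
    have h3 : IsIntegral ℤ a := ⟨X ^ n - X - 1, monic_sel ℤ n hn, by simpa using h2⟩
    exact ⟨⟨a, h3⟩, rfl⟩

theorem sel_irr : Irreducible (X ^ n - X - 1 : ℚ[X]) :=
  X_pow_sub_X_sub_one_irreducible_rat (by omega)

theorem mem_rootSet_sel (k : Type) [CommRing k] [IsDomain k] (x : k) :
    x ∈ (X ^ n - X - 1 : ℤ[X]).rootSet k ↔ x ^ n = x + 1 := by
  classical
  rw [rootSet_def, aroots_def, map_sel, Finset.mem_coe, Multiset.mem_toFinset,
    mem_roots (ne_sel k n hn), IsRoot.def, eval_sub, eval_sub, eval_pow, eval_X, eval_one,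
    sub_sub, sub_eq_zero]

omit [NumberField L] in
theorem sel_conj (a b : L) (ha : a ^ n = a + 1) (hb : b ^ n = b + 1) : ∃ σ : Gal(L/ℚ), σ a = b := by
  have hmin : minpoly ℚ a = X ^ n - X - 1 := by
    symm
    refine minpoly.eq_of_irreducible_of_monic (sel_irr n hn) ?_ (monic_sel ℚ n hn)
    simp [ha]
  refine minpoly.exists_algEquiv_of_root' (Algebra.IsAlgebraic.isAlgebraic a) ?_
  rw [hmin]
  simp [hb]

/-- The Galois group permutes the roots arbitrarily. -/
theorem sel_surj (hL : ((X ^ n - X - 1 : ℚ[X]).map (algebraMap ℚ L)).Splits)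
    (π : Equiv.Perm {x : L // x ^ n = x + 1}) :
    ∃ σ : Gal(L/ℚ), ∀ x : {x : L // x ^ n = x + 1}, σ x.1 = (π x).1 := by
  classical
  have hint : ∀ x : L, x ^ n = x + 1 → ∃ y : 𝓞 L, (y : L) = x ∧ y ^ n = y + 1 := by
    intro x hx
    have h3 : IsIntegral ℤ x := ⟨X ^ n - X - 1, monic_sel ℤ n hn, by simp [hx]⟩
    refine ⟨⟨x, h3⟩, rfl, ?_⟩
    apply RingOfIntegers.ext
    exact hx
  haveI htr : MulAction.IsPretransitive Gal(L/ℚ) ((X ^ n - X - 1 : ℤ[X]).rootSet (𝓞 L)) := by
    refine ⟨fun x y => ?_⟩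
    have hx := (mem_rootSet_sel n hn (𝓞 L) x.1).1 x.2
    have hy := (mem_rootSet_sel n hn (𝓞 L) y.1).1 y.2
    obtain ⟨σ, hσ⟩ := sel_conj n hn L (x.1 : L) (y.1 : L)
      (by exact_mod_cast congrArg (fun z : 𝓞 L => (z : L)) hx)
      (by exact_mod_cast congrArg (fun z : 𝓞 L => (z : L)) hy)
    refine ⟨σ, ?_⟩
    apply Subtype.ext
    apply RingOfIntegers.ext
    rw [rootSet.coe_smul]
    exact hσ
  have hsur := (sel_splits n hn L hL).surjective_toPermHom_of_iSup_inertia_eq_top
    (G := Gal(L/ℚ)) (fun m => by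
      haveI : IsDomain (𝓞 L ⧸ m.asIdeal) := Ideal.Quotient.isDomain _
      have h1 := collisions (𝓞 L ⧸ m.asIdeal) n hn (by
        have h2 := (sel_splits n hn L hL).map (Ideal.Quotient.mk m.asIdeal)
        rw [Polynomial.map_map] at h2
        have h3 : (Ideal.Quotient.mk m.asIdeal).comp (algebraMap ℤ (𝓞 L)) =
            algebraMap ℤ (𝓞 L ⧸ m.asIdeal) := RingHom.ext_int _ _
        rw [h3] at h2
        exact h2)
      have h2 : ((X ^ n - X - 1 : ℤ[X]).rootSet (𝓞 L)).ncard ≤ n := by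
        rw [rootSet_def, aroots_def, map_sel, Set.ncard_coe_finset]
        refine (Multiset.toFinset_card_le _).trans ?_
        refine (card_roots' _).trans ?_
        rw [deg_sel _ n hn]
      exact h2.trans h1) (by
      refine Pool.Agent.W215.FM.gen_inertia' L _ ?_
      intro P hP γ hγ
      exact Subgroup.mem_iSup_of_mem (⟨P, hP⟩ : MaximalSpectrum (𝓞 L)) hγ)
  let e : (X ^ n - X - 1 : ℤ[X]).rootSet (𝓞 L) ≃ {x : L // x ^ n = x + 1} :=
    Equiv.ofBijective (fun z => ⟨((z : 𝓞 L) : L), by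
      have hx := (mem_rootSet_sel n hn (𝓞 L) z.1).1 z.2
      exact_mod_cast congrArg (fun z : 𝓞 L => (z : L)) hx⟩) (by
      constructor
      · intro z z' h
        apply Subtype.ext
        apply RingOfIntegers.ext
        have h' := congrArg (fun w : {x : L // x ^ n = x + 1} => (w : L)) h
        exact h'
      · rintro ⟨x, hx⟩
        obtain ⟨y, hy1, hy2⟩ := hint x hx
        exact ⟨⟨y, (mem_rootSet_sel n hn _ _).2 hy2⟩, Subtype.ext hy1⟩)
  obtain ⟨σ, hσ⟩ := hsur ((e.trans π).trans e.symm)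
  refine ⟨σ, fun x => ?_⟩
  obtain ⟨z, rfl⟩ := e.surjective x
  have h1 : σ • z = e.symm (π (e z)) := by
    have h2 : MulAction.toPermHom Gal(L/ℚ) _ σ z = e.symm (π (e z)) := by
      rw [hσ]
      rfl
    exact h2
  have h3 : e (σ • z) = π (e z) := by rw [h1, Equiv.apply_symm_apply]
  have h4 := congrArg Subtype.val h3
  rw [← h4]
  change σ ((z : 𝓞 L) : L) = ((((σ • z : (X ^ n - X - 1 : ℤ[X]).rootSet (𝓞 L)) : 𝓞 L)) : L)
  rw [rootSet.coe_smul]
  rfl

end surj

section omega

attribute [-instance] DivisionRing.toRatAlgebra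

variable (Ω : Type) [Field Ω] [CharZero Ω] [IsAlgClosed Ω] [inst : Algebra ℚ Ω]
  [Algebra.IsAlgebraic ℚ Ω] (n : ℕ) (hn : 2 ≤ n)

include hn

omit [CharZero Ω] in
/-- The Galois group of `ℚ` permutes the roots arbitrarily. -/
theorem sel_surj' (π : Equiv.Perm {x : Ω // x ^ n = x + 1}) :
    ∃ σ : Gal(Ω/ℚ), ∀ x : {x : Ω // x ^ n = x + 1}, σ x.1 = (π x).1 := by
  classical
  have hne : (X ^ n - X - 1 : ℚ[X]) ≠ 0 := ne_sel ℚ n hn
  have hspl : ((X ^ n - X - 1 : ℚ[X]).map (algebraMap ℚ Ω)).Splits :=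
    IsAlgClosed.splits _
  set L : IntermediateField ℚ Ω :=
    IntermediateField.adjoin ℚ ((X ^ n - X - 1 : ℚ[X]).rootSet Ω) with hL
  haveI hsf : IsSplittingField ℚ L (X ^ n - X - 1 : ℚ[X]) :=
    IntermediateField.adjoin_rootSet_isSplittingField hspl
  haveI : FiniteDimensional ℚ L := IsSplittingField.finiteDimensional L (X ^ n - X - 1 : ℚ[X])
  haveI : CharZero L := charZero_of_injective_algebraMap (algebraMap ℚ L).injective
  haveI : NumberField L := by
    have h : FiniteDimensional ℚ L := inferInstance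
    refine @NumberField.mk L _ inferInstance ?_
    convert h
    exact Subsingleton.elim _ _
  haveI : Normal ℚ L := Normal.of_isSplittingField (X ^ n - X - 1 : ℚ[X])
  haveI : Normal ℚ Ω := by
    refine normal_iff.2 fun x => ⟨Algebra.IsIntegral.isIntegral x, IsAlgClosed.splits _⟩
  haveI : IsGalois ℚ L := ⟨⟩
  have hmem : ∀ x : Ω, x ^ n = x + 1 → x ∈ L := by
    intro x hx
    refine IntermediateField.subset_adjoin _ _ ?_
    rw [mem_rootSet]
    exact ⟨hne, by simp [hx]⟩
  let e : {x : Ω // x ^ n = x + 1} ≃ {x : L // x ^ n = x + 1} :=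
    { toFun := fun x => ⟨⟨x.1, hmem x.1 x.2⟩, Subtype.ext x.2⟩
      invFun := fun y => ⟨(y.1 : Ω), by
        have h := congrArg (fun z : L => (z : Ω)) y.2
        exact h⟩
      left_inv := fun x => rfl
      right_inv := fun y => rfl }
  obtain ⟨σ, hσ⟩ := sel_surj n hn L hsf.splits' ((e.symm.trans π).trans e)
  obtain ⟨τ, rfl⟩ := AlgEquiv.restrictNormalHom_surjective Ω σ
  refine ⟨τ, fun x => ?_⟩
  have h1 := hσ (e x)
  have h3 := AlgEquiv.restrictNormal_commutes τ L (e x).1
  have h4 : (AlgEquiv.restrictNormal τ L) (e x).1 = (e (π x)).1 := by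
    refine Eq.trans h1 ?_
    rw [Equiv.trans_apply, Equiv.trans_apply, Equiv.symm_apply_apply]
  rw [h4] at h3
  exact h3.symm

omit [CharZero Ω] in
theorem card_sel : Nat.card {x : Ω // x ^ n = x + 1} = n := by
  classical
  have hsep : (X ^ n - X - 1 : ℚ[X]).Separable := (sel_irr n hn).separable
  have h1 := card_rootSet_eq_natDegree hsep (IsAlgClosed.splits
    ((X ^ n - X - 1 : ℚ[X]).map (algebraMap ℚ Ω)))
  rw [deg_sel ℚ n hn, ← Nat.card_eq_fintype_card] at h1
  refine Eq.trans (Nat.card_congr (Equiv.subtypeEquivRight fun x => ?_)) h1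
  have hm : ((X ^ n - X - 1 : ℚ[X]).map (algebraMap ℚ Ω)) = X ^ n - X - 1 := by simp
  rw [mem_rootSet]
  simp only [map_sub, map_pow, aeval_X, map_one]
  constructor
  · intro h
    exact ⟨ne_sel ℚ n hn, by linear_combination h⟩
  · rintro ⟨-, h⟩
    linear_combination h

end omega

/-- A subgroup of small index of a symmetric group is doubly transitive. -/
theorem two_trans_of_index {R : Type} [Fintype R] [DecidableEq R] (P : Subgroup (Equiv.Perm R))
    (h5 : 5 ≤ Nat.card R) (hP : P.index < Nat.card R) (a b c d : R) (hab : a ≠ b) (hcd : c ≠ d) :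
    ∃ π ∈ P, π a = c ∧ π b = d := by
  have h1 : alternatingGroup R ≤ P := by
    refine le_trans (Equiv.Perm.alternatingGroup_le_of_normal h5 (N := P.normalCore) ?_)
      P.normalCore_le
    rw [Subgroup.nontrivial_iff_ne_bot]
    intro h
    rw [Subgroup.normalCore_eq_ker] at h
    have h2 := Nat.card_le_card_of_injective _ ((MonoidHom.ker_eq_bot_iff _).1 h)
    rw [Nat.card_perm, Nat.card_perm] at h2
    have h3 : Nat.card (Equiv.Perm R ⧸ P) = P.index := rfl
    rw [h3] at h2
    have h4 : 0 < P.index := Nat.pos_of_ne_zero Subgroup.index_ne_zero_of_finite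
    exact absurd h2 (not_le.2 ((Nat.factorial_lt h4).2 hP))
  -- a permutation with the required values
  set π₀ : Equiv.Perm R := (Equiv.swap a c).trans (Equiv.swap (Equiv.swap a c b) d) with hπ₀
  have ha : π₀ a = c := by
    rw [hπ₀, Equiv.trans_apply, Equiv.swap_apply_left]
    refine Equiv.swap_apply_of_ne_of_ne ?_ hcd
    intro h
    have h3 : Equiv.swap a c a = Equiv.swap a c b := by
      rw [Equiv.swap_apply_left]; exact h
    exact hab ((Equiv.swap a c).injective h3)
  have hb : π₀ b = d := by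
    rw [hπ₀, Equiv.trans_apply, Equiv.swap_apply_left]
  rcases Int.units_eq_one_or (Equiv.Perm.sign π₀) with h | h
  · exact ⟨π₀, h1 (Equiv.Perm.mem_alternatingGroup.2 h), ha, hb⟩
  · -- two further points
    obtain ⟨u, v, huv, hu, hv⟩ : ∃ u v : R, u ≠ v ∧ (u ≠ c ∧ u ≠ d) ∧ (v ≠ c ∧ v ≠ d) := by
      have h2 : 1 < (Finset.univ \ {c, d} : Finset R).card := by
        have h3 : ({c, d} : Finset R).card ≤ 2 := Finset.card_le_two
        have h4 := Finset.le_card_sdiff ({c, d} : Finset R) Finset.univ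
        rw [Finset.card_univ, ← Nat.card_eq_fintype_card] at h4
        omega
      obtain ⟨u, hu, v, hv, huv⟩ := Finset.one_lt_card.1 h2
      simp only [Finset.mem_sdiff, Finset.mem_univ, true_and, Finset.mem_insert,
        Finset.mem_singleton, not_or] at hu hv
      exact ⟨u, v, huv, hu, hv⟩
    refine ⟨Equiv.swap u v * π₀, h1 (Equiv.Perm.mem_alternatingGroup.2 ?_), ?_, ?_⟩
    · rw [map_mul, Equiv.Perm.sign_swap huv, h]
      rfl
    · rw [Equiv.Perm.mul_apply, ha]
      exact Equiv.swap_apply_of_ne_of_ne hu.1.symm hv.1.symm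
    · rw [Equiv.Perm.mul_apply, hb]
      exact Equiv.swap_apply_of_ne_of_ne hu.2.symm hv.2.symm

end Pool.Agent.L0h51.RK
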