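import Pool.Agent.L0h51.RK.Sel2
import Pool.Agent.L0h51.RK.Core

/-! The fields generated by a root of `X ^ n - X - 1` over a number field. -/

set_option autoImplicit false
set_option maxHeartbeats 400000
set_option linter.style.haveILetI false

namespace Pool.Agent.L0h51.RK

open Pool.Agent.K4H40.ST Pool.Agent.K4H53.SI
open Polynomial NumberField

variable (K : Type) [Field K] [NumberField K] (n : ℕ) (hn : 5 ≤ n) (hd : Module.finrank ℚ K < n)

/-- the action on the roots -/
noncomputable def rootPerm (Ω : Type) [Field Ω] [Algebra ℚ Ω] (n : ℕ) :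
    Gal(Ω/ℚ) →* Equiv.Perm {x : Ω // x ^ n = x + 1} where
  toFun σ :=
    { toFun := fun x => ⟨σ x.1, by rw [← map_pow, x.2, map_add, map_one]⟩
      invFun := fun x => ⟨σ.symm x.1, by rw [← map_pow, x.2, map_add, map_one]⟩
      left_inv := fun x => Subtype.ext (σ.symm_apply_apply x.1)
      right_inv := fun x => Subtype.ext (σ.apply_symm_apply x.1) }
  map_one' := rfl
  map_mul' := fun _ _ => rfl

include hn hd

theorem sel_two_trans (a b c d : Kbar K) (ha : a ^ n = a + 1) (hb : b ^ n = b + 1)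
    (hc : c ^ n = c + 1) (hd' : d ^ n = d + 1) (hab : a ≠ b) (hcd : c ≠ d) :
    ∃ σ : Gal(Kbar K/K), σ a = c ∧ σ b = d := by
  classical
  haveI : CharZero (Kbar K) := charZero_of_injective_algebraMap (algebraMap K (Kbar K)).injective
  haveI : IsAlgClosed (Kbar K) := AlgebraicClosure.isAlgClosed K
  haveI : Algebra.IsAlgebraic K (Kbar K) := AlgebraicClosure.isAlgebraic K
  haveI : Algebra.IsAlgebraic ℚ (Kbar K) := Algebra.IsAlgebraic.trans ℚ K (Kbar K)
  set F : IntermediateField ℚ (Kbar K) := (IsScalarTower.toAlgHom ℚ K (Kbar K)).fieldRange with hF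
  have hFfin : Module.finrank ℚ F = Module.finrank ℚ K :=
    (LinearEquiv.finrank_eq
      (AlgEquiv.ofInjectiveField (IsScalarTower.toAlgHom ℚ K (Kbar K))).toLinearEquiv).symm
  haveI : IsGalois ℚ (Kbar K) := by
    haveI : Normal ℚ (Kbar K) :=
      normal_iff.2 fun x => ⟨Algebra.IsIntegral.isIntegral x, IsAlgClosed.splits _⟩
    exact ⟨⟩
  have hidx : F.fixingSubgroup.index = Module.finrank ℚ K := by
    rw [← hFfin]
    exact (IntermediateField.finrank_eq_fixingSubgroup_index (Kbar K) F).symm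
  have hsur : Function.Surjective (rootPerm (Kbar K) n) := by
    intro π
    obtain ⟨σ, hσ⟩ := sel_surj' (Kbar K) n (by omega) π
    exact ⟨σ, Equiv.ext fun x => Subtype.ext (hσ x)⟩
  have hcard : Nat.card {x : Kbar K // x ^ n = x + 1} = n := card_sel (Kbar K) n (by omega)
  haveI : Finite {x : Kbar K // x ^ n = x + 1} := Nat.finite_of_card_ne_zero (by omega)
  letI : Fintype {x : Kbar K // x ^ n = x + 1} := Fintype.ofFinite _
  have hP : (F.fixingSubgroup.map (rootPerm (Kbar K) n)).index <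
      Nat.card {x : Kbar K // x ^ n = x + 1} := by
    rw [hcard]
    refine lt_of_le_of_lt ?_ hd
    rw [← hidx]
    refine Nat.le_of_dvd ?_ (Subgroup.index_map_dvd _ hsur)
    rw [hidx]
    exact Module.finrank_pos
  obtain ⟨π, ⟨τ, hτ, rfl⟩, h1, h2⟩ := two_trans_of_index
    (F.fixingSubgroup.map (rootPerm (Kbar K) n)) (by omega) hP ⟨a, ha⟩ ⟨b, hb⟩ ⟨c, hc⟩ ⟨d, hd'⟩
    (fun h => hab (congrArg Subtype.val h)) (fun h => hcd (congrArg Subtype.val h))
  have hcomm : ∀ k : K, τ (algebraMap K (Kbar K) k) = algebraMap K (Kbar K) k := by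
    intro k
    have h3 := (IntermediateField.mem_fixingSubgroup_iff F τ).1 hτ
    exact h3 _ ⟨k, rfl⟩
  refine ⟨AlgEquiv.ofRingEquiv (f := τ.toRingEquiv) hcomm, ?_, ?_⟩
  · exact congrArg Subtype.val h1
  · exact congrArg Subtype.val h2

omit hd in
theorem card_sel' : Nat.card {x : Kbar K // x ^ n = x + 1} = n := by
  haveI : CharZero (Kbar K) := charZero_of_injective_algebraMap (algebraMap K (Kbar K)).injective
  haveI : IsAlgClosed (Kbar K) := AlgebraicClosure.isAlgClosed K
  haveI : Algebra.IsAlgebraic K (Kbar K) := AlgebraicClosure.isAlgebraic K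
  haveI : Algebra.IsAlgebraic ℚ (Kbar K) := Algebra.IsAlgebraic.trans ℚ K (Kbar K)
  exact card_sel (Kbar K) n (by omega)

omit hd in
theorem exists_other (x : Kbar K) (hx : x ^ n = x + 1) : ∃ y : Kbar K, y ^ n = y + 1 ∧ x ≠ y := by
  have h1 := card_sel' K n hn
  haveI : Finite {x : Kbar K // x ^ n = x + 1} := Nat.finite_of_card_ne_zero (by omega)
  haveI : Nontrivial {x : Kbar K // x ^ n = x + 1} := by
    rw [← Finite.one_lt_card_iff_nontrivial]
    omega
  obtain ⟨y, hy⟩ := exists_ne (⟨x, hx⟩ : {x : Kbar K // x ^ n = x + 1})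
  exact ⟨y.1, y.2, fun h => hy (Subtype.ext h.symm)⟩

end Pool.Agent.L0h51.RK

namespace Pool.Agent.L0h51.RK

open Pool.Agent.K4H40.ST Pool.Agent.K4H53.SI
open NumberField IntermediateField

variable (K : Type) [Field K] [NumberField K]

theorem rk_le_two {G : Type} [Group G] (H : Subgroup G) (g₀ : G)
    (h : ∀ a b : G, a⁻¹ * b ∉ H → ∃ σ : G, a⁻¹ * σ ∈ H ∧ b⁻¹ * (σ * g₀) ∈ H) : rk H ≤ 2 := by
  let q : Bool → MulAction.orbitRel.Quotient G ((G ⧸ H) × (G ⧸ H)) := fun i =>
    Quotient.mk'' (QuotientGroup.mk 1, QuotientGroup.mk (if i then g₀ else 1))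
  have hq : Function.Surjective q := by
    intro y
    induction y using Quotient.inductionOn' with
    | h y =>
      obtain ⟨y1, y2⟩ := y
      obtain ⟨a, rfl⟩ := QuotientGroup.mk_surjective y1
      obtain ⟨b, rfl⟩ := QuotientGroup.mk_surjective y2
      by_cases hab : a⁻¹ * b ∈ H
      · refine ⟨false, Quotient.sound' ?_⟩
        refine ⟨a⁻¹, ?_⟩
        change ((QuotientGroup.mk (a⁻¹ * a) : G ⧸ H), (QuotientGroup.mk (a⁻¹ * b) : G ⧸ H)) =
          (QuotientGroup.mk 1, QuotientGroup.mk 1)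
        rw [inv_mul_cancel, Prod.mk.injEq]
        refine ⟨rfl, ?_⟩
        rw [QuotientGroup.eq, mul_one, inv_mem_iff]
        exact hab
      · obtain ⟨σ, h1, h2⟩ := h a b hab
        refine ⟨true, Quotient.sound' ?_⟩
        refine ⟨σ⁻¹, ?_⟩
        change ((QuotientGroup.mk (σ⁻¹ * a) : G ⧸ H), (QuotientGroup.mk (σ⁻¹ * b) : G ⧸ H)) =
          (QuotientGroup.mk 1, QuotientGroup.mk g₀)
        rw [Prod.mk.injEq, QuotientGroup.eq, QuotientGroup.eq]
        constructor
        · have h3 : (σ⁻¹ * a)⁻¹ * 1 = a⁻¹ * σ := by group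
          rw [h3]
          exact h1
        · have h3 : (σ⁻¹ * b)⁻¹ * g₀ = b⁻¹ * (σ * g₀) := by group
          rw [h3]
          exact h2
  have h1 : Nat.card (MulAction.orbitRel.Quotient G ((G ⧸ H) × (G ⧸ H))) ≤ Nat.card Bool :=
    Nat.card_le_card_of_surjective q hq
  rw [Nat.card_eq_fintype_card (α := Bool), Fintype.card_bool] at h1
  exact h1

omit [NumberField K] in
theorem mem_fix_simple (θ : Kbar K) (σ : Gal(Kbar K/K)) :
    σ ∈ (adjoin K {θ}).fixingSubgroup ↔ σ θ = θ := by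
  rw [IntermediateField.mem_fixingSubgroup_iff]
  constructor
  · intro h
    exact h θ (mem_adjoin_simple_self K θ)
  · intro h x hx
    have h1 : adjoin K {θ} ≤ fixedField (Subgroup.zpowers σ) := by
      rw [adjoin_simple_le_iff, mem_fixedField_iff]
      intro τ hτ
      obtain ⟨k, rfl⟩ := Subgroup.mem_zpowers_iff.1 hτ
      have h2 : σ ∈ MulAction.stabilizer Gal(Kbar K/K) θ := h
      exact Subgroup.zpow_mem _ h2 k
    have h2 := h1 hx
    rw [mem_fixedField_iff] at h2
    exact h2 σ (Subgroup.mem_zpowers σ)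

/-- The rank of the fields generated by a root of `X ^ n - X - 1`. -/
theorem sel_rank (n : ℕ) (hn : 5 ≤ n) (hd : Module.finrank ℚ K < n) (θ : Kbar K)
    (hθ : θ ^ n = θ + 1) :
    Module.finrank K (adjoin K {θ}) = n ∧ rank (adjoin K {θ}) = 2 := by
  classical
  have hpow : ∀ (σ : Gal(Kbar K/K)) (x : Kbar K), x ^ n = x + 1 → (σ x) ^ n = σ x + 1 := by
    intro σ x hx
    rw [← map_pow, hx, map_add, map_one]
  obtain ⟨θ', hθ', hne⟩ := exists_other K n hn θ hθ
  have hfr : Module.finrank K (adjoin K {θ}) = n := by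
    rw [← idx]
    have h1 : (adjoin K {θ}).fixingSubgroup = MulAction.stabilizer Gal(Kbar K/K) θ := by
      ext σ
      rw [mem_fix_simple, MulAction.mem_stabilizer_iff]
      rfl
    rw [h1, MulAction.index_stabilizer]
    have h2 : MulAction.orbit Gal(Kbar K/K) θ = {x : Kbar K | x ^ n = x + 1} := by
      ext x
      constructor
      · rintro ⟨σ, rfl⟩
        exact hpow σ θ hθ
      · intro hx
        obtain ⟨y, hy, hxy⟩ := exists_other K n hn x hx
        obtain ⟨σ, h3, -⟩ := sel_two_trans K n hn hd θ θ' x y hθ hθ' hx hy hne hxy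
        exact ⟨σ, h3⟩
    rw [h2, ← Nat.card_coe_set_eq]
    exact card_sel' K n hn
  haveI : Algebra.IsAlgebraic K (Kbar K) := AlgebraicClosure.isAlgebraic K
  haveI : FiniteDimensional K (adjoin K {θ}) :=
    adjoin.finiteDimensional (Algebra.IsIntegral.isIntegral θ)
  refine ⟨hfr, le_antisymm ?_ (rank_ge_two _ fun h => ?_)⟩
  · obtain ⟨g₀, hg₀⟩ : ∃ σ : Gal(Kbar K/K), σ θ = θ' := by
      obtain ⟨σ, h1, -⟩ := sel_two_trans K n hn hd θ θ' θ' θ hθ hθ' hθ' hθ hne hne.symm
      exact ⟨σ, h1⟩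
    refine rk_le_two _ g₀ fun a b hab => ?_
    rw [mem_fix_simple] at hab
    have hne2 : a θ ≠ b θ := by
      intro h
      apply hab
      rw [AlgEquiv.mul_apply, ← h]
      exact a.symm_apply_apply θ
    obtain ⟨σ, h1, h2⟩ := sel_two_trans K n hn hd θ θ' (a θ) (b θ) hθ hθ' (hpow a θ hθ)
      (hpow b θ hθ) hne hne2
    refine ⟨σ, ?_, ?_⟩
    · rw [mem_fix_simple, AlgEquiv.mul_apply, h1]
      exact a.symm_apply_apply θ
    · rw [mem_fix_simple, AlgEquiv.mul_apply, AlgEquiv.mul_apply, hg₀, h2]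
      exact b.symm_apply_apply θ
  · rw [h] at hfr
    have h1 : Module.finrank K (⊥ : IntermediateField K (Kbar K)) = 1 :=
      IntermediateField.finrank_bot
    omega

/-- The Sato-Tate conjecture over `K(θ)`, `θ ^ n = θ + 1`, for infinitely many `n`. -/
theorem descent_sel {g : ℕ} {R : Type} [CommRing R]
    (ρ : Gal(Kbar K/K) →* GL (Fin g ⊕ Fin g) R) (ι : R →+* ℂ)
    (hsymp : IsSymplectic ρ) (hunr : IsUnramified K (Kbar K) ρ)
    (hinf : {n : ℕ | ∃ θ : Kbar K, θ ^ n = θ + 1 ∧ Holds ρ ι (adjoin K {θ})}.Infinite) :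
    SatoTate K (Kbar K) (extend ρ ι) := by
  refine descent_primitive ρ ι hsymp hunr 2 ?_
  intro hfin
  set B := max 5 (Module.finrank ℚ K + 1) with hB
  have h1 : ({n : ℕ | ∃ θ : Kbar K, θ ^ n = θ + 1 ∧ Holds ρ ι (adjoin K {θ})} \ Set.Iio B).Infinite :=
    hinf.sdiff (Set.finite_Iio B)
  refine h1 ?_
  refine (hfin.image fun E : IntermediateField K (Kbar K) => Module.finrank K E).subset ?_
  rintro n ⟨⟨θ, hθ, hH⟩, hnB⟩
  simp only [Set.mem_Iio, not_lt] at hnB
  have h5 : 5 ≤ n := le_trans (le_max_left _ _) hnB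
  have hd : Module.finrank ℚ K < n := lt_of_lt_of_le (Nat.lt_succ_self _) ((le_max_right _ _).trans hnB)
  obtain ⟨h2, h3⟩ := sel_rank K n h5 hd θ hθ
  exact ⟨adjoin K {θ}, ⟨atom_of_rank_two _ h3, h3.le, hH⟩, h2⟩

end Pool.Agent.L0h51.RK
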